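import Pool.Agent.W353.AT.Bessel
import Pool.Agent.W401.Cheb.Frob

/-! Bessel's inequality for the values of bounded functions on a finite set against a family of vector
functions on the Galois group. -/

set_option autoImplicit false

namespace Pool.Agent.K4H20.FM

open Complex Filter Topology ComplexConjugate Pool.Agent.H341R2 NumberField IsDedekindDomain
  Pool.Agent.W401.Cheb Pool.Agent.W540.BE Pool.Agent.W353.L1

theorem frob_conj {F : Type} [Field F] [NumberField F] {v : HeightOneSpectrum (𝓞 F)} {σ : GK F}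
    (h : IsFrob v σ) (ρ : GK F) : IsFrob v (ρ * σ * ρ⁻¹) :=
  (Pool.Agent.W401.Frob.main F).2.2 v σ ρ h

/-- the square of the norm of a vector -/
noncomputable def ns {Γ : Type*} [Fintype Γ] (w : Γ → ℝ) : ℝ := ∑ γ, w γ ^ 2

theorem ns_nonneg {Γ : Type*} [Fintype Γ] (w : Γ → ℝ) : 0 ≤ ns w :=
  Finset.sum_nonneg fun _ _ => sq_nonneg _

theorem ns_sum {Γ : Type*} [Fintype Γ] {κ : Type*} [Fintype κ] (c : κ → ℝ) (w : κ → Γ → ℝ) :
    ns (fun γ => ∑ k, c k * w k γ) = ∑ k, ∑ l, c k * c l * ∑ γ, w k γ * w l γ := by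
  unfold ns
  have h : ∀ γ, (∑ k, c k * w k γ) ^ 2 = ∑ k, ∑ l, c k * c l * (w k γ * w l γ) := by
    intro γ
    rw [pow_two, Finset.sum_mul_sum]
    exact Finset.sum_congr rfl fun k _ => Finset.sum_congr rfl fun l _ => by ring
  rw [Finset.sum_congr rfl fun γ _ => h γ, Finset.sum_comm]
  refine Finset.sum_congr rfl fun k _ => ?_
  rw [Finset.sum_comm]
  exact Finset.sum_congr rfl fun l _ => (Finset.mul_sum _ _ _).symm

section
variable {F : Type} [Field F] [NumberField F] (V : Subgroup (GK F)) [V.Normal]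
  (hV : IsOpen (V : Set (GK F))) [Finite (GK F ⧸ V)]
  {κ : Type*} [Fintype κ] {Γ : Type*} [Fintype Γ] {E D C : ℝ} (hE : 0 ≤ E)
  (w : κ → GK F ⧸ V → Γ → ℝ) (hw1 : ∀ k q, ns (w k q) ≤ D)
  (hw2 : ∀ k l, k ≠ l → ∑ᶠ q, ∑ γ, w k q γ * w l q γ = 0)
  (S : κ → HeightOneSpectrum (𝓞 F) → ℝ) (hSb : ∀ k v, |S k v| ≤ C)
  (hCS : ∀ v σ, IsFrob v σ → ∀ c : κ → ℝ,
    (∑ k, c k * S k v) ^ 2 ≤ E * ns (fun γ => ∑ k, c k * w k (QuotientGroup.mk σ) γ))
  {x : κ → ℝ → ℝ} (hx : ∀ k, Tendsto (fun ε : ℝ =>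
    (EP (nm F) ε (S k)) / lam ε - x k ε) (𝓝[>] 0) (𝓝 0))

include hV hE hw1 hw2 hSb hCS hx in
/-- **Upper bounds for linear combinations.** -/
theorem comb (c : κ → ℝ) {b : ℝ} (hb : 0 < b) {η : ℝ} (hη : 0 < η) :
    ∀ᶠ ε : ℝ in 𝓝[>] 0,
      |∑ k, c k * x k ε| ≤ (E * D * (∑ k, c k ^ 2) / b + b) / 2 + η := by
  classical
  have hN : NormSys (nm F) := normSys
  let _ : Fintype (GK F ⧸ V) := Fintype.ofFinite _
  choose σ hσ using exists_isFrob (F := F)
  have hcard : (0 : ℝ) < Nat.card (GK F ⧸ V) := by exact_mod_cast Nat.card_pos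
  set φ : GK F ⧸ V → ℝ := fun q => ns (fun γ => ∑ k, c k * w k q γ) with hφ
  set h : GK F ⧸ V → ℝ := fun q => (Nat.card (GK F ⧸ V) : ℝ)⁻¹ * ∑ g, φ (g * q * g⁻¹) with hh
  have hφ0 : ∀ q, 0 ≤ φ q := fun q => ns_nonneg _
  have hh0 : ∀ q, 0 ≤ h q := fun q => mul_nonneg (by positivity)
    (Finset.sum_nonneg fun g _ => hφ0 _)
  have hcls : ∀ q g, h (g * q * g⁻¹) = h q := by
    intro q g
    rw [hh]
    simp only
    congr 1
    rw [← Equiv.sum_comp (Equiv.mulRight g) fun g' => φ (g' * q * g'⁻¹)]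
    refine Finset.sum_congr rfl fun g' _ => ?_
    congr 1
    rw [Equiv.coe_mulRight]
    group
  have hmeanh : ∑ q, h q = ∑ q, φ q := by
    rw [hh, ← Finset.mul_sum, Finset.sum_comm]
    have e1 : ∀ g : GK F ⧸ V, ∑ q, φ (g * q * g⁻¹) = ∑ q, φ q := by
      intro g
      exact Equiv.sum_comp (MulAut.conj g).toEquiv φ
    rw [Finset.sum_congr rfl fun g _ => e1 g, Finset.sum_const, Finset.card_univ, nsmul_eq_mul,
      ← Nat.card_eq_fintype_card, ← mul_assoc, inv_mul_cancel₀ hcard.ne', one_mul]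
  have hsumφ : ∑ q, φ q ≤ Nat.card (GK F ⧸ V) * (D * ∑ k, c k ^ 2) := by
    have h2 : ∑ q, φ q = ∑ k, c k ^ 2 * ∑ q, ns (w k q) := by
      have h2 : ∑ q, φ q = ∑ k, ∑ l, c k * c l * ∑ q, ∑ γ, w k q γ * w l q γ := by
        have e0 : ∀ q, φ q = ∑ k, ∑ l, c k * c l * ∑ γ, w k q γ * w l q γ :=
          fun q => ns_sum c fun k => w k q
        rw [Finset.sum_congr rfl fun q _ => e0 q, Finset.sum_comm]
        refine Finset.sum_congr rfl fun k _ => ?_
        rw [Finset.sum_comm]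
        exact Finset.sum_congr rfl fun l _ => (Finset.mul_sum _ _ _).symm
      rw [h2]
      refine Finset.sum_congr rfl fun k _ => ?_
      rw [Finset.sum_eq_single k]
      · rw [← pow_two]
        congr 1
        refine Finset.sum_congr rfl fun q _ => ?_
        unfold ns
        exact Finset.sum_congr rfl fun γ _ => by ring
      · intro l _ hl
        have h3 := hw2 k l (Ne.symm hl)
        rw [finsum_eq_sum_of_fintype] at h3
        rw [h3, mul_zero]
      · intro h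
        exact absurd (Finset.mem_univ k) h
    rw [h2]
    have h3 : ∀ k, ∑ q, ns (w k q) ≤ Nat.card (GK F ⧸ V) * D := by
      intro k
      refine (Finset.sum_le_card_nsmul _ _ D fun q _ => hw1 k q).trans (le_of_eq ?_)
      rw [nsmul_eq_mul, Finset.card_univ, Nat.card_eq_fintype_card]
    calc ∑ k, c k ^ 2 * ∑ q, ns (w k q) ≤ ∑ k, c k ^ 2 * (Nat.card (GK F ⧸ V) * D) :=
          Finset.sum_le_sum fun k _ => mul_le_mul_of_nonneg_left (h3 k) (sq_nonneg _)
      _ = _ := by rw [← Finset.sum_mul]; ring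
  set m : ℝ := (Nat.card (GK F ⧸ V) : ℝ)⁻¹ * ∑ q, h q with hm
  have hm_le : m ≤ D * ∑ k, c k ^ 2 := by
    rw [hm, hmeanh, inv_mul_le_iff₀ hcard]
    exact hsumφ
  -- Chebotarev
  have hcheb := cheb_edge V hV (fun q => (h q : ℂ)) (fun q g => by rw [hcls]) m (by
    rw [avC_ofReal]
    unfold avR
    rw [finsum_eq_sum_of_fintype]) σ hσ 0
  rw [if_pos rfl] at hcheb
  have hcheb' : Tendsto (fun ε : ℝ => (EP (nm F) ε fun v => h (QuotientGroup.mk (σ v))) / lam ε)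
      (𝓝[>] 0) (𝓝 m) := by
    refine hcheb.congr fun ε => ?_
    congr 2
    funext v
    simp
  have hHas : Has (fun v => h (QuotientGroup.mk (σ v))) m := by
    refine ⟨⟨∑ q, |h q|, fun v => ?_⟩, hcheb'⟩
    exact Finset.single_le_sum (f := fun q => |h q|) (fun q _ => abs_nonneg _) (Finset.mem_univ _)
  -- pointwise
  set W : HeightOneSpectrum (𝓞 F) → ℝ := fun v => ∑ k, c k * S k v with hW
  have hpt : ∀ v, (W v) ^ 2 ≤ E * h (QuotientGroup.mk (σ v)) := by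
    intro v
    have h1 : ∀ g : GK F ⧸ V, (W v) ^ 2 ≤ E * φ (g * QuotientGroup.mk (σ v) * g⁻¹) := by
      intro g
      obtain ⟨g, rfl⟩ := QuotientGroup.mk_surjective g
      have h2 := hCS v (g * σ v * g⁻¹) (frob_conj (hσ v) g) c
      exact h2
    have h2 : ∑ _g : GK F ⧸ V, (W v) ^ 2 ≤
        ∑ g : GK F ⧸ V, E * φ (g * QuotientGroup.mk (σ v) * g⁻¹) :=
      Finset.sum_le_sum fun g _ => h1 g
    rw [Finset.sum_const, Finset.card_univ, nsmul_eq_mul, ← Finset.mul_sum,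
      ← Nat.card_eq_fintype_card] at h2
    rw [hh]
    simp only
    rw [mul_left_comm, le_inv_mul_iff₀ hcard]
    exact h2
  have hpt2 : ∀ v, |W v| ≤ (E / (2 * b)) * h (QuotientGroup.mk (σ v)) + b / 2 * 1 := by
    intro v
    have h1 := hpt v
    have h2 : 0 ≤ (|W v| - b) ^ 2 := sq_nonneg _
    have h3 : |W v| ^ 2 = W v ^ 2 := sq_abs _
    have h4 : |W v| * (2 * b) ≤ E * h (QuotientGroup.mk (σ v)) + b ^ 2 := by nlinarith
    have h5 : (E / (2 * b)) * h (QuotientGroup.mk (σ v)) + b / 2 * 1 =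
        (E * h (QuotientGroup.mk (σ v)) + b ^ 2) / (2 * b) := by
      field_simp
    rw [h5, le_div_iff₀ (by positivity)]
    exact h4
  have hmaj := (hHas.const_mul (E / (2 * b))).add (has_one.const_mul (b / 2))
  obtain ⟨⟨Bm, hBm⟩, hlm⟩ := hmaj
  have hsum := tendsto_finsetSum Finset.univ fun k _ => (hx k).const_mul (c k)
  simp only [mul_zero, Finset.sum_const_zero] at hsum
  have h1 := (Metric.tendsto_nhds.1 hsum) (η / 2) (by positivity)
  have hlt : (E / (2 * b)) * m + b / 2 * 1 <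
      (E * D * (∑ k, c k ^ 2) / b + b) / 2 + η / 2 := by
    have h2 : (E / (2 * b)) * m ≤ (E / (2 * b)) * (D * ∑ k, c k ^ 2) :=
      mul_le_mul_of_nonneg_left hm_le (by positivity)
    have h3 : (E / (2 * b)) * (D * ∑ k, c k ^ 2) = (E * D * (∑ k, c k ^ 2) / b) / 2 := by
      field_simp
    linarith
  filter_upwards [h1, hlm.eventually_lt_const hlt, lam_tendsto.eventually_gt_atTop 0,
    self_mem_nhdsWithin] with ε h3 h4 h5 h6
  have hε : (0 : ℝ) < ε := h6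
  rw [Real.dist_eq, sub_zero] at h3
  have hcomb : ∑ k, c k * ((EP (nm F) ε (S k)) / lam ε) = (EP (nm F) ε W) / lam ε := by
    have e1 : ∀ k ∈ Finset.univ, c k * ((EP (nm F) ε (S k)) / lam ε) =
        (EP (nm F) ε fun v => c k * S k v) / lam ε := by
      intro k _
      rw [EP_const_mul, mul_div_assoc]
    rw [Finset.sum_congr rfl e1, ← Finset.sum_div, ← EP_sum hN hε Finset.univ
      (fun k v => c k * S k v) (fun k => |c k| * C) (fun k _ v => by
        rw [abs_mul]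
        exact mul_le_mul_of_nonneg_left (hSb k v) (abs_nonneg _))]
  have hle : |EP (nm F) ε W| ≤ EP (nm F) ε
      (fun v => (E / (2 * b)) * h (QuotientGroup.mk (σ v)) + b / 2 * 1) :=
    EP_abs_le (B := Bm) (fun v => hBm v) hpt2 hε
  have e3 : ∑ k, c k * x k ε = (∑ k, c k * ((EP (nm F) ε (S k)) / lam ε)) -
      ∑ k, c k * ((EP (nm F) ε (S k)) / lam ε - x k ε) := by
    rw [← Finset.sum_sub_distrib]
    refine Finset.sum_congr rfl fun k _ => ?_
    ring
  rw [e3, hcomb]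
  refine (abs_sub _ _).trans ?_
  have h7 : |(EP (nm F) ε W) / lam ε| ≤ (EP (nm F) ε
      (fun v => (E / (2 * b)) * h (QuotientGroup.mk (σ v)) + b / 2 * 1)) / lam ε := by
    rw [abs_div, abs_of_pos h5]
    exact div_le_div_of_nonneg_right hle h5.le
  linarith

include hV hE hw1 hw2 hSb hCS hx in
/-- **Bessel's inequality for the sizes.** -/
theorem bess (hD : 0 ≤ D) {η : ℝ} (hη : 0 < η) :
    ∀ᶠ ε : ℝ in 𝓝[>] 0, ∑ k, (x k ε) ^ 2 ≤ E * D + η := by
  classical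
  by_contra hcon
  rw [not_eventually] at hcon
  have hbd : ∀ k, ∀ᶠ ε : ℝ in 𝓝[>] 0, |x k ε| ≤ (E * D + 1) / 2 + 1 := by
    intro k
    have h1 := comb V hV hE w hw1 hw2 S hSb hCS hx (fun l => if l = k then 1 else 0)
      one_pos one_pos
    refine h1.mono fun ε hε => ?_
    have h4 : ∑ l, (if l = k then (1 : ℝ) else 0) * x l ε = x k ε := by
      rw [Finset.sum_eq_single k]
      · simp
      · intro l _ hl
        simp [hl]
      · intro h
        exact absurd (Finset.mem_univ k) h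
    have h3 : ∑ l, (if l = k then (1 : ℝ) else 0) ^ 2 = 1 := by
      rw [Finset.sum_eq_single k]
      · simp
      · intro l _ hl
        simp [hl]
      · intro h
        exact absurd (Finset.mem_univ k) h
    rw [h4, h3, mul_one, div_one] at hε
    exact hε
  obtain ⟨𝒰, h𝒰, hU2⟩ : ∃ 𝒰 : Ultrafilter ℝ, (𝒰 : Filter ℝ) ≤ 𝓝[>] 0 ∧
      ∀ᶠ ε in (𝒰 : Filter ℝ), ¬ ∑ k, (x k ε) ^ 2 ≤ E * D + η := by
    have hne' : (𝓝[>] (0 : ℝ) ⊓ 𝓟 {ε | ¬ ∑ k, (x k ε) ^ 2 ≤ E * D + η}).NeBot :=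
      frequently_iff_neBot.1 hcon
    refine ⟨Ultrafilter.of (𝓝[>] (0 : ℝ) ⊓ 𝓟 {ε | ¬ ∑ k, (x k ε) ^ 2 ≤ E * D + η}),
      (Ultrafilter.of_le _).trans inf_le_left, ?_⟩
    have h1 : ((Ultrafilter.of (𝓝[>] (0 : ℝ) ⊓
        𝓟 {ε | ¬ ∑ k, (x k ε) ^ 2 ≤ E * D + η}) : Ultrafilter ℝ) : Filter ℝ) ≤
        𝓟 {ε | ¬ ∑ k, (x k ε) ^ 2 ≤ E * D + η} := (Ultrafilter.of_le _).trans inf_le_right
    exact h1 (mem_principal_self _)
  have hex : ∀ k : κ, ∃ y : ℝ, Tendsto (x k) 𝒰 (𝓝 y) := by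
    intro k
    have hcomp : IsCompact (Set.Icc (-((E * D + 1) / 2 + 1)) ((E * D + 1) / 2 + 1)) :=
      isCompact_Icc
    have hmem : (𝒰.map (x k) : Filter ℝ) ≤
        𝓟 (Set.Icc (-((E * D + 1) / 2 + 1)) ((E * D + 1) / 2 + 1)) := by
      rw [le_principal_iff]
      have := (hbd k).filter_mono h𝒰
      exact this.mono fun ε hε => abs_le.1 hε
    obtain ⟨y, -, hy⟩ := hcomp.ultrafilter_le_nhds (𝒰.map (x k)) hmem
    exact ⟨y, hy⟩
  choose y hy using hex
  have hlim : Tendsto (fun ε => ∑ k, (x k ε) ^ 2) 𝒰 (𝓝 (∑ k, (y k) ^ 2)) :=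
    tendsto_finsetSum Finset.univ fun k _ => (hy k).pow 2
  have hge : E * D + η ≤ ∑ k, (y k) ^ 2 :=
    ge_of_tendsto hlim (hU2.mono fun ε hε => (not_le.1 hε).le)
  set T := ∑ k, (y k) ^ 2 with hT
  have hED : 0 ≤ E * D := mul_nonneg hE hD
  have hT0 : 0 < T := by linarith
  have hle : T ≤ (E * D * T / T + T) / 2 := by
    refine le_of_forall_pos_le_add fun η' hη' => ?_
    have h1 := comb V hV hE w hw1 hw2 S hSb hCS hx y hT0 hη'
    have h2 : Tendsto (fun ε => |∑ k, y k * x k ε|) 𝒰 (𝓝 |∑ k, y k * y k|) :=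
      (tendsto_finsetSum Finset.univ fun k _ => (hy k).const_mul (y k)).abs
    have h3 := le_of_tendsto h2 (h1.filter_mono h𝒰)
    refine le_trans (le_of_eq ?_) h3
    have h4 : ∑ k, y k * y k = T := Finset.sum_congr rfl fun k _ => by ring
    rw [h4, abs_of_pos hT0]
  rw [mul_div_cancel_right₀ _ hT0.ne'] at hle
  linarith

end

end Pool.Agent.K4H20.FM
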