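import Pool.Agent.K4H20.FM.Core

/-! Cocycles on normal subgroups. -/

set_option autoImplicit false

namespace Pool.Agent.K4H20.FM

open Filter Topology NumberField IsDedekindDomain Polynomial
open Pool.Agent.W401.Cheb (GK)

section
variable {K : Type} [Field K] [NumberField K] {n : ℕ} {X : Set (MvPolynomial (Fin n) (𝓞 K))}
  {Γ : Type} [Group Γ] {a : AutGroup X Γ} {d i : ℕ} {ξ : Gal(AlgebraicClosure K/K) → Γ}

theorem IsCocycle.inv (hξ : IsCocycle a ξ) (σ : GK K) : a.α σ (ξ σ⁻¹) = (ξ σ)⁻¹ := by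
  have h := hξ.mul σ σ⁻¹
  rw [mul_inv_cancel, hξ.one] at h
  exact eq_inv_of_mul_eq_one_right h.symm

theorem IsCocycle.conj (hξ : IsCocycle a ξ) (σ u : GK K) (hu : a.α u = 1) :
    ξ (σ * u * σ⁻¹) = ξ σ * a.α σ (ξ u) * (ξ σ)⁻¹ := by
  rw [hξ.mul, hξ.mul, map_mul, hu, mul_one, hξ.inv]

theorem IsCocycle.mul_left (hξ : IsCocycle a ξ) (u σ : GK K) (hu : a.α u = 1) :
    ξ (u * σ) = ξ u * ξ σ := by
  rw [hξ.mul, hu, MulAut.one_apply]

/-- the restriction to a subgroup acting trivially on `Γ` -/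
def resW (hξ : IsCocycle a ξ) (W : Subgroup (GK K)) (hW : ∀ u ∈ W, a.α u = 1) : W →* Γ where
  toFun u := ξ u
  map_one' := hξ.one
  map_mul' u v := hξ.mul_left u v (hW u u.2)

theorem resW_range (hξ : IsCocycle a ξ) (W : Subgroup (GK K)) (hW : ∀ u ∈ W, a.α u = 1) :
    Subgroup.closure (ξ '' (W : Set (GK K))) = (resW hξ W hW).range := by
  have h : ξ '' (W : Set (GK K)) = ((resW hξ W hW).range : Set Γ) := by
    ext γ
    constructor
    · rintro ⟨u, hu, rfl⟩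
      exact ⟨⟨u, hu⟩, rfl⟩
    · rintro ⟨u, rfl⟩
      exact ⟨u, u.2, rfl⟩
  rw [h, Subgroup.closure_eq]

theorem mem_closure_iff (hξ : IsCocycle a ξ) {W : Subgroup (GK K)} (hW : ∀ u ∈ W, a.α u = 1)
    {γ : Γ} : γ ∈ Subgroup.closure (ξ '' (W : Set (GK K))) ↔ ∃ u ∈ W, ξ u = γ := by
  rw [resW_range hξ W hW]
  constructor
  · rintro ⟨u, rfl⟩
    exact ⟨u, u.2, rfl⟩
  · rintro ⟨u, hu, rfl⟩
    exact ⟨⟨u, hu⟩, rfl⟩

theorem closure_stable (hξ : IsCocycle a ξ) {W : Subgroup (GK K)} (hWn : W.Normal)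
    (hW : ∀ u ∈ W, a.α u = 1) (σ : GK K) (δ : Γ)
    (hδ : δ ∈ Subgroup.closure (ξ '' (W : Set (GK K)))) :
    ξ σ * a.α σ δ * (ξ σ)⁻¹ ∈ Subgroup.closure (ξ '' (W : Set (GK K))) := by
  obtain ⟨u, hu, rfl⟩ := (mem_closure_iff hξ hW).1 hδ
  refine (mem_closure_iff hξ hW).2 ⟨σ * u * σ⁻¹, hWn.conj_mem u hu σ, ?_⟩
  exact hξ.conj σ u (hW u hu)

/-- the elements of `W` on which the cocycle is trivial -/
def nextW (hξ : IsCocycle a ξ) (W : Subgroup (GK K)) : Subgroup (GK K) where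
  carrier := {u | u ∈ W ∧ ξ u = 1}
  one_mem' := ⟨W.one_mem, hξ.one⟩
  mul_mem' := fun {u v} hu hv => ⟨W.mul_mem hu.1 hv.1, by
    rw [hξ.mul, hu.2, hv.2, map_one, mul_one]⟩
  inv_mem' := fun {u} hu => ⟨W.inv_mem hu.1, by
    have h := hξ.inv u
    rw [hu.2, inv_one] at h
    exact (MulEquiv.map_eq_one_iff (a.α u)).1 h⟩

theorem nextW_le (hξ : IsCocycle a ξ) (W : Subgroup (GK K)) : nextW hξ W ≤ W := fun _ h => h.1

theorem nextW_normal (hξ : IsCocycle a ξ) {W : Subgroup (GK K)} (hWn : W.Normal)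
    (hW : ∀ u ∈ W, a.α u = 1) : (nextW hξ W).Normal := by
  refine ⟨fun u hu g => ⟨hWn.conj_mem u hu.1 g, ?_⟩⟩
  rw [hξ.conj g u (hW u hu.1), hu.2, map_one, mul_one, mul_inv_cancel]

theorem nextW_open (hξ : IsCocycle a ξ) {W : Subgroup (GK K)}
    (hWo : IsOpen (W : Set (GK K))) : IsOpen (nextW hξ W : Set (GK K)) := by
  obtain ⟨U, hU, hU1⟩ := hξ.cont
  refine Subgroup.isOpen_mono (H₁ := W ⊓ U) (fun u hu => ⟨hu.1, hU1 u hu.2⟩) ?_
  rw [Subgroup.coe_inf]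
  exact hWo.inter hU

theorem nextW_index [Finite Γ] (hξ : IsCocycle a ξ) {W : Subgroup (GK K)}
    (hW : ∀ u ∈ W, a.α u = 1) : (nextW hξ W).index ≤ W.index * Nat.card Γ := by
  have h1 : (nextW hξ W).relIndex W = Nat.card (resW hξ W hW).range := by
    have h2 : (nextW hξ W).subgroupOf W = (resW hξ W hW).ker := by
      ext u
      rw [Subgroup.mem_subgroupOf, MonoidHom.mem_ker]
      constructor
      · intro h
        exact h.2
      · intro h
        exact ⟨u.2, h⟩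
    rw [Subgroup.relIndex, h2, Subgroup.index_ker]
  have h3 : Nat.card (resW hξ W hW).range ≤ Nat.card Γ := Subgroup.card_le_card_group _
  rw [← Subgroup.relIndex_mul_index (nextW_le hξ W), h1, mul_comm]
  exact Nat.mul_le_mul_left _ h3

end

end Pool.Agent.K4H20.FM
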