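import Pool.Agent.K4H20.FM.Fac
import Pool.Agent.K4H20.FM.Bess
import Pool.Agent.K4H20.TF.Size

/-! Bessel's inequality for the `L`-functions of forms and of their quotients. -/

set_option autoImplicit false

namespace Pool.Agent.K4H20.FM

open Filter Topology NumberField IsDedekindDomain Polynomial
open Pool.Agent.H341R2 (lam)
open Pool.Agent.W401.Cheb (GK IsFrob)
open Pool.Agent.W540.BE (nm EP exists_isFrob two_le_nm)
open Pool.Agent.W353.EF (LFun size HasOrder)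
open Pool.Agent.K4H20.TF (size_t)

section
variable {Γ : Type} [Group Γ]

open Classical in
/-- the vector of a quotient of a form -/
noncomputable def wv (x : Γ) (Δ : Subgroup Γ) (γ : Γ) : ℝ :=
  (if γ = x then 1 else 0) - (Nat.card Δ : ℝ)⁻¹ * if γ * x⁻¹ ∈ Δ then 1 else 0

variable [Fintype Γ]

theorem cardR_ne (Δ : Subgroup Γ) : (Nat.card Δ : ℝ) ≠ 0 := by
  have : 0 < Nat.card Δ := Nat.card_pos
  exact_mod_cast this.ne'

/-- sums over a coset -/
theorem sum_coset {R : Type*} [AddCommMonoid R] (x : Γ) (Δ : Subgroup Γ) [Fintype Δ] (f : Γ → R)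
    [DecidablePred fun γ => γ * x⁻¹ ∈ Δ] :
    (∑ γ : Γ, if γ * x⁻¹ ∈ Δ then f γ else 0) = ∑ δ : Δ, f (δ * x) := by
  classical
  rw [← Finset.sum_filter]
  refine (Finset.sum_bij (fun (δ : Δ) _ => (δ : Γ) * x) ?_ ?_ ?_ ?_).symm
  · intro δ _
    rw [Finset.mem_filter]
    refine ⟨Finset.mem_univ _, ?_⟩
    rw [mul_inv_cancel_right]
    exact δ.2
  · intro δ _ δ' _ h
    exact Subtype.ext (mul_right_cancel h)
  · intro γ hγ
    exact ⟨⟨γ * x⁻¹, (Finset.mem_filter.1 hγ).2⟩, Finset.mem_univ _,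
      inv_mul_cancel_right γ x⟩
  · intro δ _
    rfl

theorem sum_p_wv (p : Γ → ℂ) (x : Γ) (Δ : Subgroup Γ) :
    ∑ γ, p γ * (wv x Δ γ : ℂ) = p x - (Nat.card Δ : ℂ)⁻¹ * ∑ᶠ δ : Δ, p ((δ : Γ)⁻¹ * x) := by
  classical
  let _ : Fintype Δ := Fintype.ofFinite _
  have h1 : ∀ γ, p γ * (wv x Δ γ : ℂ) = (if γ = x then p γ else 0) -
      (Nat.card Δ : ℂ)⁻¹ * (if γ * x⁻¹ ∈ Δ then p γ else 0) := by
    intro γ
    unfold wv
    split_ifs <;> push_cast <;> ring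
  rw [Finset.sum_congr rfl fun γ _ => h1 γ, Finset.sum_sub_distrib, Finset.sum_ite_eq',
    if_pos (Finset.mem_univ x), ← Finset.mul_sum, sum_coset x Δ p, finsum_eq_sum_of_fintype,
    ← Equiv.sum_comp (Equiv.inv Δ) fun δ : Δ => p (δ * x)]
  rfl

theorem sum_wv (f : Γ → ℝ) (x : Γ) (Δ : Subgroup Γ) [Fintype Δ] :
    ∑ γ, f γ * wv x Δ γ = f x - (Nat.card Δ : ℝ)⁻¹ * ∑ δ : Δ, f (δ * x) := by
  classical
  have h1 : ∀ γ, f γ * wv x Δ γ = (if γ = x then f γ else 0) -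
      (Nat.card Δ : ℝ)⁻¹ * (if γ * x⁻¹ ∈ Δ then f γ else 0) := by
    intro γ
    unfold wv
    split_ifs <;> ring
  rw [Finset.sum_congr rfl fun γ _ => h1 γ, Finset.sum_sub_distrib, Finset.sum_ite_eq',
    if_pos (Finset.mem_univ x), ← Finset.mul_sum, sum_coset x Δ f]

theorem wv_coset (x : Γ) (Δ : Subgroup Γ) [DecidableEq Δ] (δ : Δ) :
    wv x Δ (δ * x) = (if δ = 1 then 1 else 0) - (Nat.card Δ : ℝ)⁻¹ := by
  classical
  unfold wv
  have h1 : ((δ : Γ) * x = x) ↔ δ = 1 := by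
    rw [mul_eq_right]
    constructor
    · intro h; exact Subtype.ext h
    · intro h; rw [h]; rfl
  have h2 : (δ : Γ) * x * x⁻¹ ∈ Δ := by rw [mul_inv_cancel_right]; exact δ.2
  rw [if_pos h2, mul_one]
  by_cases h : δ = 1
  · rw [if_pos (h1.2 h), if_pos h]
  · rw [if_neg fun h' => h (h1.1 h'), if_neg h]

theorem sum_wv_coset (x : Γ) (Δ : Subgroup Γ) [Fintype Δ] : ∑ δ : Δ, wv x Δ (δ * x) = 0 := by
  classical
  rw [Finset.sum_congr rfl fun δ _ => wv_coset x Δ δ, Finset.sum_sub_distrib, Finset.sum_ite_eq',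
    if_pos (Finset.mem_univ _), Finset.sum_const, Finset.card_univ, nsmul_eq_mul,
    ← Nat.card_eq_fintype_card, mul_inv_cancel₀ (cardR_ne Δ), sub_self]

theorem ns_wv (x : Γ) (Δ : Subgroup Γ) : ns (wv x Δ) ≤ 1 - (Nat.card Γ : ℝ)⁻¹ := by
  classical
  let _ : Fintype Δ := Fintype.ofFinite _
  have h1 : ns (wv x Δ) = 1 - (Nat.card Δ : ℝ)⁻¹ := by
    unfold ns
    rw [Finset.sum_congr rfl fun γ _ => pow_two (wv x Δ γ), sum_wv, sum_wv_coset, mul_zero,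
      sub_zero]
    have := wv_coset x Δ 1
    rw [if_pos rfl, Subgroup.coe_one, one_mul] at this
    exact this
  rw [h1]
  have h2 : (Nat.card Δ : ℝ) ≤ Nat.card Γ := by exact_mod_cast Subgroup.card_le_card_group Δ
  have h3 : (0 : ℝ) < Nat.card Δ := by
    have : 0 < Nat.card Δ := Nat.card_pos
    exact_mod_cast this
  have := inv_anti₀ h3 h2
  linarith

theorem sum_wv_left (x : Γ) (Δ : Subgroup Γ) [Fintype Δ] (γ : Γ) :
    ∑ δ : Δ, wv (δ * x) Δ γ = 0 := by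
  classical
  have h1 : ∀ δ : Δ, wv (δ * x) Δ γ = (if γ = δ * x then 1 else 0) -
      (Nat.card Δ : ℝ)⁻¹ * (if γ * x⁻¹ ∈ Δ then 1 else 0) := by
    intro δ
    unfold wv
    have h2 : γ * ((δ : Γ) * x)⁻¹ ∈ Δ ↔ γ * x⁻¹ ∈ Δ := by
      rw [mul_inv_rev, ← mul_assoc]
      exact Δ.mul_mem_cancel_right (Δ.inv_mem δ.2)
    simp only [h2]
  rw [Finset.sum_congr rfl fun δ _ => h1 δ, Finset.sum_sub_distrib, Finset.sum_const,
    Finset.card_univ, nsmul_eq_mul, ← Nat.card_eq_fintype_card, ← mul_assoc,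
    mul_inv_cancel₀ (cardR_ne Δ), one_mul]
  by_cases h : γ * x⁻¹ ∈ Δ
  · rw [if_pos h, Finset.sum_eq_single (⟨γ * x⁻¹, h⟩ : Δ)]
    · rw [if_pos (inv_mul_cancel_right γ x).symm, sub_self]
    · intro δ _ hδ
      rw [if_neg]
      intro h'
      apply hδ
      apply Subtype.ext
      exact eq_mul_inv_of_mul_eq h'.symm
    · intro h'
      exact absurd (Finset.mem_univ _) h'
  · rw [if_neg h, Finset.sum_eq_zero, sub_zero]
    intro δ _
    rw [if_neg]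
    intro h'
    apply h
    rw [h', mul_inv_cancel_right]
    exact δ.2

end

section
variable {K : Type} [Field K] [NumberField K] {n : ℕ} {X : Set (MvPolynomial (Fin n) (𝓞 K))}
  {Γ : Type} [Group Γ] {a : AutGroup X Γ} {d i N : ℕ}

/-- the factor at `v` -/
def GoodF (a : AutGroup X Γ) (d i N : ℕ) (ξ : Gal(AlgebraicClosure K/K) → Γ) (Δ : Subgroup Γ)
    (P : ℂ[X]) (v : HeightOneSpectrum (𝓞 K)) : Prop :=
  ∀ Q σ, IsFrobeniusAt v Q σ → IsFactor (Ideal.absNorm v.asIdeal) d i N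
    (count a ξ Δ Q σ (Ideal.absNorm v.asIdeal)) P

theorem goodF_real [Finite Γ] (hi : i ≤ 2 * d) {v : HeightOneSpectrum (𝓞 K)}
    {ξ : Gal(AlgebraicClosure K/K) → Γ} {Δ : Subgroup Γ} {P : ℂ[X]}
    (hP : GoodF a d i N ξ Δ P v) :
    |tt i P v| ≤ N ∧ ∃ S : Multiset ℂ, Multiset.card S ≤ N ∧
      (∀ z ∈ S, ‖z‖ = (Ideal.absNorm v.asIdeal : ℝ) ^ ((i : ℝ) / 2)) ∧
      (∀ z : ℂ, P.eval z = (S.map fun a => 1 - a * z).prod) ∧
      S.sum = (tt i P v : ℂ) * (((Ideal.absNorm v.asIdeal : ℝ) ^ ((i : ℝ) / 2) : ℝ) : ℂ) := by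
  obtain ⟨σ, Q, hQ⟩ := exists_isFrob K v
  exact factor_real hi (hP Q σ hQ)

variable [Fintype Γ]

/-- **Bessel's inequality for forms and their quotients.** -/
theorem core (hi : i ≤ 2 * d) {κ : Type*} [Fintype κ]
    {ξ : κ → Gal(AlgebraicClosure K/K) → Γ} (hξ : ∀ k, IsCocycle a (ξ k))
    {Δ : κ → Subgroup Γ} (V : Subgroup (GK K)) [V.Normal] (hV : IsOpen (V : Set (GK K)))
    (hξV : ∀ k, ∀ u ∈ V, ξ k u = 1)
    (horth : ∀ k l, k ≠ l → ∑ᶠ q : GK K ⧸ V,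
      ∑ γ, wv (ξ k q.out) (Δ k) γ * wv (ξ l q.out) (Δ l) γ = 0)
    {B B' : κ → HeightOneSpectrum (𝓞 K) → ℂ[X]}
    (hB : ∀ k, IsEulerSystem a d i N (ξ k) ⊥ (B k))
    (hB' : ∀ k, IsEulerSystem a d i N (ξ k) (Δ k) (B' k)) :
    (∀ k, ∀ᶠ ε : ℝ in 𝓝[>] 0, LFun (B k) ((i : ℂ) / 2 + 1 + ε) ≠ 0) ∧
    (∀ k, ∀ᶠ ε : ℝ in 𝓝[>] 0, LFun (B' k) ((i : ℂ) / 2 + 1 + ε) ≠ 0) ∧
    ∀ η : ℝ, 0 < η → ∀ᶠ ε : ℝ in 𝓝[>] 0,
      ∑ k, (size i (B k) ε - size i (B' k) ε) ^ 2 ≤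
        (((Nat.card Γ - 1) * N ^ 2 : ℕ) : ℝ) + η := by
  classical
  have hfinV : Finite (GK K ⧸ V) := Subgroup.quotient_finite_of_isOpen V hV
  set Good : HeightOneSpectrum (𝓞 K) → Prop := fun v =>
    ∀ k, GoodPrime a d i N v ∧ GoodF a d i N (ξ k) ⊥ (B k v) v ∧
      GoodF a d i N (ξ k) (Δ k) (B' k v) v with hGood
  have hfin : ∀ᶠ v in cofinite, Good v := by
    rw [hGood, Filter.eventually_all]
    exact fun k => ((hB k).1.and (hB' k).1).mono fun v hv => ⟨hv.1.1, hv.1.2, hv.2.2⟩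
  -- sizes
  have hsz : ∀ (ξ' : Gal(AlgebraicClosure K/K) → Γ) (Δ' : Subgroup Γ)
      (B'' : HeightOneSpectrum (𝓞 K) → ℂ[X]) (hB'' : IsEulerSystem a d i N ξ' Δ' B'')
      (hG : ∀ v, Good v → GoodF a d i N ξ' Δ' (B'' v) v),
      (∀ᶠ ε : ℝ in 𝓝[>] 0, LFun B'' ((i : ℂ) / 2 + 1 + ε) ≠ 0) ∧
      Tendsto (fun ε : ℝ => (EP (nm K) ε fun v => if Good v then tt i (B'' v) v else 0) / lam ε -
        size i B'' ε) (𝓝[>] 0) (𝓝 0) := by
    intro ξ' Δ' B'' hB'' hG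
    have e0 : ((((i : ℝ) / 2 : ℝ) : ℂ) + 1) = (i : ℂ) / 2 + 1 := by push_cast; ring
    have h := size_t (F := K) ((i : ℝ) / 2) (b := N)
      (fun v => if Good v then tt i (B'' v) v else 0) (fun v => by
        split_ifs with hv
        · exact (goodF_real hi (hG v hv)).1
        · rw [abs_zero]
          exact Nat.cast_nonneg _) B'' (hfin.mono fun v hv => by
        obtain ⟨S, h1, h2, h3, h4⟩ := (goodF_real hi (hG v hv)).2
        refine ⟨S, h1, h2, h3, ?_⟩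
        rw [if_pos hv]
        exact h4) (by
        intro v
        rw [e0]
        exact hB''.2 v) (LFun B'') (fun s _ => rfl)
    simp only [e0] at h
    exact h
  have hszB := fun k => hsz (ξ k) ⊥ (B k) (hB k) fun v hv => (hv k).2.1
  have hszB' := fun k => hsz (ξ k) (Δ k) (B' k) (hB' k) fun v hv => (hv k).2.2
  refine ⟨fun k => (hszB k).1, fun k => (hszB' k).1, fun η hη => ?_⟩
  set S : κ → HeightOneSpectrum (𝓞 K) → ℝ := fun k v =>
    (if Good v then tt i (B k v) v else 0) + (-1) * (if Good v then tt i (B' k v) v else 0)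
    with hS
  have hb1 : ∀ k v, |if Good v then tt i (B k v) v else 0| ≤ (N : ℝ) := by
    intro k v
    split_ifs with hv
    · exact (goodF_real hi (hv k).2.1).1
    · rw [abs_zero]
      exact Nat.cast_nonneg _
  have hb2 : ∀ k v, |(-1) * if Good v then tt i (B' k v) v else 0| ≤ (N : ℝ) := by
    intro k v
    rw [abs_mul, abs_neg, abs_one, one_mul]
    split_ifs with hv
    · exact (goodF_real hi (hv k).2.2).1
    · rw [abs_zero]
      exact Nat.cast_nonneg _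
  have hξout : ∀ k g, ξ k (QuotientGroup.mk g : GK K ⧸ V).out = ξ k g := by
    intro k g
    have h1 : (QuotientGroup.mk g : GK K ⧸ V) = QuotientGroup.mk
        ((QuotientGroup.mk g : GK K ⧸ V).out) := (QuotientGroup.out_eq' _).symm
    have h2 := QuotientGroup.eq.1 h1
    set g' := (QuotientGroup.mk g : GK K ⧸ V).out with hg'
    have h4 : g' = g * (g⁻¹ * g') := by group
    rw [h4, (hξ k).mul, hξV k _ h2, map_one, mul_one]
  have hcΓ : (1 : ℝ) ≤ Nat.card Γ := by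
    have : 0 < Nat.card Γ := Nat.card_pos
    exact_mod_cast this
  have hED : ((Nat.card Γ : ℝ) * (N : ℝ) ^ 2) * (1 - (Nat.card Γ : ℝ)⁻¹) =
      (((Nat.card Γ - 1) * N ^ 2 : ℕ) : ℝ) := by
    have : 1 ≤ Nat.card Γ := Nat.card_pos
    push_cast [Nat.cast_sub this]
    field_simp
  rw [← hED]
  refine bess V hV (E := (Nat.card Γ : ℝ) * (N : ℝ) ^ 2) (D := 1 - (Nat.card Γ : ℝ)⁻¹)
    (by positivity) (fun k q => wv (ξ k q.out) (Δ k))
    (fun k q => ns_wv _ _) horth S (C := (N : ℝ) + N)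
    (fun k v => (abs_add_le _ _).trans (add_le_add (hb1 k v) (hb2 k v))) ?_
    (x := fun k ε => size i (B k) ε - size i (B' k) ε) ?_ ?_ hη
  · intro v σ hσ c
    by_cases hv : Good v
    swap
    · have h0 : ∀ k, S k v = 0 := by
        intro k
        rw [hS]
        simp only
        rw [if_neg hv, if_neg hv]
        ring
      simp only [h0, mul_zero, Finset.sum_const_zero]
      rw [zero_pow two_ne_zero]
      exact mul_nonneg (by positivity) (ns_nonneg _)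
    by_cases hκ : Nonempty κ
    swap
    · have hem : IsEmpty κ := not_nonempty_iff.1 hκ
      rw [Finset.sum_of_isEmpty, zero_pow two_ne_zero]
      exact mul_nonneg (by positivity) (ns_nonneg _)
    obtain ⟨k₀⟩ := hκ
    obtain ⟨Q, hQ⟩ := hσ
    obtain ⟨p, hp1, hp2⟩ := exists_p hi (hv k₀).1 hQ
    have h1 : ∀ k, ((S k v : ℝ) : ℂ) = ∑ γ, p γ * (wv (ξ k σ) (Δ k) γ : ℂ) := by
      intro k
      have e1 := hp2 (ξ k) (hξ k) ⊥ (B k v) ((hv k).2.1 Q σ hQ)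
      have e2 := hp2 (ξ k) (hξ k) (Δ k) (B' k v) ((hv k).2.2 Q σ hQ)
      have e3 : (Nat.card (⊥ : Subgroup Γ) : ℂ)⁻¹ *
          ∑ᶠ δ : (⊥ : Subgroup Γ), p ((δ : Γ)⁻¹ * ξ k σ) = p (ξ k σ) := by
        rw [finsum_eq_sum_of_fintype]
        have h : ((default : (⊥ : Subgroup Γ)) : Γ) = 1 :=
          Subgroup.mem_bot.1 (default : (⊥ : Subgroup Γ)).2
        simp [h]
      rw [e3] at e1
      rw [sum_p_wv, hS]
      simp only
      rw [if_pos hv, if_pos hv]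
      push_cast
      rw [e1, e2]
      ring
    have h2 : ((∑ k, c k * S k v : ℝ) : ℂ) =
        ∑ γ, p γ * ((∑ k, c k * wv (ξ k σ) (Δ k) γ : ℝ) : ℂ) := by
      rw [Complex.ofReal_sum]
      have e4 : ∀ γ, p γ * ((∑ k, c k * wv (ξ k σ) (Δ k) γ : ℝ) : ℂ) =
          ∑ k, (c k : ℂ) * (p γ * (wv (ξ k σ) (Δ k) γ : ℂ)) := by
        intro γ
        rw [Complex.ofReal_sum, Finset.mul_sum]
        refine Finset.sum_congr rfl fun k _ => ?_
        push_cast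
        ring
      rw [Finset.sum_congr rfl fun γ _ => e4 γ, Finset.sum_comm]
      refine Finset.sum_congr rfl fun k _ => ?_
      rw [← Finset.mul_sum, ← h1 k]
      push_cast
      rfl
    have h3 : |∑ k, c k * S k v| ≤ ∑ γ, ‖p γ‖ * |∑ k, c k * wv (ξ k σ) (Δ k) γ| := by
      have e5 : |∑ k, c k * S k v| = ‖((∑ k, c k * S k v : ℝ) : ℂ)‖ := by
        rw [Complex.norm_real, Real.norm_eq_abs]
      rw [e5, h2]
      refine (_root_.norm_sum_le _ _).trans (Finset.sum_le_sum fun γ _ => ?_)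
      rw [norm_mul, Complex.norm_real, Real.norm_eq_abs]
    have h4 := Finset.sum_mul_sq_le_sq_mul_sq Finset.univ (fun γ : Γ => ‖p γ‖)
      (fun γ => |∑ k, c k * wv (ξ k σ) (Δ k) γ|)
    have h5 : ∑ γ : Γ, ‖p γ‖ ^ 2 ≤ (Nat.card Γ : ℝ) * (N : ℝ) ^ 2 := by
      refine (Finset.sum_le_card_nsmul _ _ ((N : ℝ) ^ 2) fun γ _ =>
        pow_le_pow_left₀ (norm_nonneg _) (hp1 γ) 2).trans (le_of_eq ?_)
      rw [nsmul_eq_mul, Finset.card_univ, Nat.card_eq_fintype_card]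
    have h6 : ∑ γ : Γ, |∑ k, c k * wv (ξ k σ) (Δ k) γ| ^ 2 =
        ns (fun γ => ∑ k, c k * wv (ξ k (QuotientGroup.mk σ : GK K ⧸ V).out) (Δ k) γ) := by
      unfold ns
      refine Finset.sum_congr rfl fun γ _ => ?_
      rw [sq_abs]
      congr 1
      exact Finset.sum_congr rfl fun k _ => by rw [hξout]
    calc (∑ k, c k * S k v) ^ 2 = |∑ k, c k * S k v| ^ 2 := (sq_abs _).symm
      _ ≤ (∑ γ, ‖p γ‖ * |∑ k, c k * wv (ξ k σ) (Δ k) γ|) ^ 2 :=
          pow_le_pow_left₀ (abs_nonneg _) h3 2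
      _ ≤ (∑ γ : Γ, ‖p γ‖ ^ 2) * ∑ γ : Γ, |∑ k, c k * wv (ξ k σ) (Δ k) γ| ^ 2 := h4
      _ ≤ _ := by
          rw [h6]
          exact mul_le_mul_of_nonneg_right h5 (ns_nonneg _)
  · intro k
    have h1 := (hszB k).2.sub (hszB' k).2
    rw [sub_zero] at h1
    refine h1.congr' ?_
    filter_upwards [self_mem_nhdsWithin] with ε hε
    have hε' : (0 : ℝ) < ε := hε
    rw [hS]
    simp only
    rw [Pool.Agent.W540.BE.EP_add Pool.Agent.W540.BE.normSys hε' (hb1 k) (hb2 k),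
      Pool.Agent.W540.BE.EP_const_mul]
    ring
  · have := inv_le_one_of_one_le₀ hcΓ
    linarith

end

end Pool.Agent.K4H20.FM
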