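import Pool.Agent.W353.EF.Defs

/-!
# The L-functions of all forms of a projective variety: definitions

`X` is a smooth projective variety over a number field `K` (for instance `K = ℚ`; it may be
disconnected), `Γ` a finite group of automorphisms of `X` over the algebraic closure of `K`, stable under
the Galois group.  A continuous cocycle `ξ` of the absolute Galois group of `K` with values in `Γ` gives
a form `X_ξ` of `X`: a variety over `K` which is isomorphic to `X` over the algebraic closure, with the
Galois action `σ * x = ξ(σ) σ(x)` on the points.  If `Δ ≤ Γ` is a subgroup which is stable under the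
twisted action `δ ↦ ξ(σ) σ(δ) ξ(σ)⁻¹`, then the quotient `X_ξ / Δ` is a variety over `K`.
-/

set_option autoImplicit false

namespace Pool.Agent.K4H20.FM

open NumberField IsDedekindDomain Filter Topology Polynomial
open Pool.Agent.W353.EF (LFun size HasOrder)

/-- `σ` is a Frobenius element at `Q`: `Q` is a maximal ideal above `v` of the ring of all algebraic
integers, and `σ x ≡ x ^ q_v` modulo `Q` for all `x`. -/
def IsFrobeniusAt {K : Type} [Field K] [NumberField K] (v : HeightOneSpectrum (𝓞 K))
    (Q : Ideal (𝓞 (AlgebraicClosure K))) (σ : Gal(AlgebraicClosure K/K)) : Prop :=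
  Q.IsMaximal ∧ Q.comap (algebraMap (𝓞 K) (𝓞 (AlgebraicClosure K))) = v.asIdeal ∧
    ∀ x : 𝓞 (AlgebraicClosure K), σ • x - x ^ Ideal.absNorm v.asIdeal ∈ Q

/-- Two matrices give the same map of projective space. -/
def SameMap {R : Type} [CommRing R] {n : ℕ} (A B : Matrix (Fin n) (Fin n) R) : Prop :=
  ∃ a b : R, a ≠ 0 ∧ b ≠ 0 ∧ a • A = b • B

/-- An action of the group `Γ` over the algebraic closure on the projective variety `X` over `K` given
by the homogeneous polynomials in the set `X`, stable under the Galois group.  `A γ` is a matrix of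
algebraic integers giving the automorphism `γ` of `X`, and `α` is the action of the Galois group on `Γ`:
`σ(γ x) = (α σ γ)(σ x)` for the points `x` of `X`.  (In a suitable projective embedding of `X` the
automorphisms in a given finite group are always of this kind.) -/
structure AutGroup {K : Type} [Field K] {n : ℕ} (X : Set (MvPolynomial (Fin n) (𝓞 K)))
    (Γ : Type) [Group Γ] where
  A : Γ → Matrix (Fin n) (Fin n) (𝓞 (AlgebraicClosure K))
  α : Gal(AlgebraicClosure K/K) →* MulAut Γ
  map_one : SameMap (A 1) 1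
  map_mul : ∀ γ δ, SameMap (A (γ * δ)) (A γ * A δ)
  galois : ∀ σ γ, SameMap (A (α σ γ)) ((A γ).map fun x => σ • x)
  isOpen_ker : IsOpen (α.ker : Set Gal(AlgebraicClosure K/K))
  maps : ∀ (γ : Γ) (u : Fin n → AlgebraicClosure K),
    (∀ f ∈ X, MvPolynomial.eval₂ (algebraMap (𝓞 K) (AlgebraicClosure K)) u f = 0) →
    ∀ f ∈ X, MvPolynomial.eval₂ (algebraMap (𝓞 K) (AlgebraicClosure K))
      (fun j => ∑ k, (A γ j k : AlgebraicClosure K) * u k) f = 0

/-- For an automorphism `γ` of `X`, given by the matrix `A`, and a power `m` of the norm of the prime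
below `Q`: this is `m - 1` times the number of the points `x` of `X` with coordinates in the algebraic
closure `𝓞 / Q` of the residue field such that `F x = γ x`, for the `m`-Frobenius `F`.  Indeed it is the
number of the nonzero solutions `u` of the equations with `u_j ^ m = (A u)_j`, and every such point has
`m - 1` coordinate vectors of this kind. -/
noncomputable def cone {K : Type} [Field K] {n : ℕ} (X : Set (MvPolynomial (Fin n) (𝓞 K)))
    (A : Matrix (Fin n) (Fin n) (𝓞 (AlgebraicClosure K))) (Q : Ideal (𝓞 (AlgebraicClosure K)))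
    (m : ℕ) : ℕ :=
  Nat.card {u : Fin n → 𝓞 (AlgebraicClosure K) ⧸ Q // u ≠ 0 ∧
    (∀ f ∈ X, MvPolynomial.eval₂
      ((Ideal.Quotient.mk Q).comp (algebraMap (𝓞 K) (𝓞 (AlgebraicClosure K)))) u f = 0) ∧
    ∀ j, u j ^ m = ∑ k, Ideal.Quotient.mk Q (A j k) * u k}

/-- `x α(x) ⋯ α^{e-1}(x)`; if `F γ = α(γ) F` for all `γ`, then `(x F)^e = nrm α x e · F^e`. -/
def nrm {Γ : Type} [Group Γ] (α : MulAut Γ) (x : Γ) : ℕ → Γ
  | 0 => 1
  | e + 1 => x * α (nrm α x e)

/-- `P(z) = det(1 - F z | H^i)` for a variety of dimension `d` over the field with `q` elements which has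
`c e / (q ^ e - 1)` points over the field with `q ^ e` elements and `i`-th Betti number at most `N`:
there are finite multisets `β_k` of complex numbers of absolute value `q^(k/2)`, `k = 0, …, 2d`, such
that the number of the points over the field with `q ^ e` elements is `∑ (-1)^k ∑_{z ∈ β_k} z^e`, and
`P(z) = ∏_{a ∈ β_i} (1 - a z)`, `#β_i ≤ N`.  The multisets `β_k` are unique; they exist, by the theorem
of Deligne, for smooth projective varieties and their quotients by finite groups. -/
def IsFactor (q d i N : ℕ) (c : ℕ → ℂ) (P : ℂ[X]) : Prop :=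
  ∃ β : ℕ → Multiset ℂ, (∀ k, ∀ z ∈ β k, ‖z‖ = (q : ℝ) ^ ((k : ℝ) / 2)) ∧
    (∀ e, 1 ≤ e → c e = ((q : ℂ) ^ e - 1) *
      ∑ k ∈ Finset.range (2 * d + 1), (-1 : ℂ) ^ k * ((β k).map (fun z => z ^ e)).sum) ∧
    Multiset.card (β i) ≤ N ∧ ∀ z : ℂ, P.eval z = ((β i).map fun a => 1 - a * z).prod

section
variable {K : Type} [Field K] [NumberField K] {n : ℕ} {X : Set (MvPolynomial (Fin n) (𝓞 K))}
  {Γ : Type} [Group Γ]

/-- A prime `v` of good reduction: the reduction of `X` modulo `v` and its forms for the elements of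
`Γ` have Frobenius eigenvalues as in `IsFactor`.  For `x ∈ Γ` the form of the reduction with the
Frobenius `x F` has over the extension of degree `e` of the residue field as many points as there are
points with `(x F)^e u = u`, that is, `F^e u = (nrm α x e)⁻¹ u`. -/
def GoodPrime (a : AutGroup X Γ) (d i N : ℕ) (v : HeightOneSpectrum (𝓞 K)) : Prop :=
  ∀ Q σ, IsFrobeniusAt v Q σ → ∀ x : Γ, ∃ P, IsFactor (Ideal.absNorm v.asIdeal) d i N
    (fun e => (cone X (a.A (nrm (a.α σ) x e)⁻¹) Q (Ideal.absNorm v.asIdeal ^ e) : ℂ)) P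

/-- A continuous 1-cocycle of the absolute Galois group with values in `Γ`. -/
structure IsCocycle (a : AutGroup X Γ) (ξ : Gal(AlgebraicClosure K/K) → Γ) : Prop where
  mul : ∀ σ τ, ξ (σ * τ) = ξ σ * a.α σ (ξ τ)
  cont : ∃ U : Subgroup Gal(AlgebraicClosure K/K),
    IsOpen (U : Set Gal(AlgebraicClosure K/K)) ∧ ∀ u ∈ U, ξ u = 1

/-- For a Frobenius element `σ` at `Q` and the norm `q` of the prime below `Q`: this is `q ^ e - 1` times
the number of the points of `X_ξ / Δ` with coordinates in the field with `q ^ e` elements, that is, the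
mean value over `δ ∈ Δ` of the numbers of the points `x` of `X` over the algebraic closure of the
residue field with `ξ(σ^e) F^e x = δ x`.  For `Δ = 1` these are the points of `X_ξ`. -/
noncomputable def count (a : AutGroup X Γ) (ξ : Gal(AlgebraicClosure K/K) → Γ) (Δ : Subgroup Γ)
    (Q : Ideal (𝓞 (AlgebraicClosure K))) (σ : Gal(AlgebraicClosure K/K)) (q e : ℕ) : ℂ :=
  (Nat.card Δ : ℂ)⁻¹ * ∑ᶠ δ : Δ, (cone X (a.A ((ξ (σ ^ e))⁻¹ * δ)) Q (q ^ e) : ℂ)

/-- The polynomials `B v` are the Euler factors of `L(H^i(X_ξ / Δ), s)`, at almost all primes `v` of `K`;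
at the other primes `B v` is an arbitrary polynomial, and no factor `1 / B_v(q_v^{-s})` has a pole at
`s₀ = i/2 + 1`.  For `Δ = 1` it is the `L`-function of the form `X_ξ`. -/
def IsEulerSystem (a : AutGroup X Γ) (d i N : ℕ) (ξ : Gal(AlgebraicClosure K/K) → Γ)
    (Δ : Subgroup Γ) (B : HeightOneSpectrum (𝓞 K) → ℂ[X]) : Prop :=
  (∀ᶠ v in cofinite, GoodPrime a d i N v ∧ ∀ Q σ, IsFrobeniusAt v Q σ →
    IsFactor (Ideal.absNorm v.asIdeal) d i N
      (count a ξ Δ Q σ (Ideal.absNorm v.asIdeal)) (B v)) ∧
  ∀ v, (B v).eval ((Ideal.absNorm v.asIdeal : ℂ) ^ (-((i : ℂ) / 2 + 1))) ≠ 0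

/-- The image under the cocycle `ξ` of the Galois group of the extension `M`.  If the automorphisms in
`Γ` are defined over `M`, then `ξ` is a homomorphism on this Galois group, and if moreover `M / K` is
Galois, then the image is stable under the twisted action `δ ↦ ξ(σ) σ(δ) ξ(σ)⁻¹`. -/
def image (ξ : Gal(AlgebraicClosure K/K) → Γ) (M : IntermediateField K (AlgebraicClosure K)) :
    Subgroup Γ :=
  Subgroup.closure (ξ '' (M.fixingSubgroup : Set Gal(AlgebraicClosure K/K)))

end

end Pool.Agent.K4H20.FM
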