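import Pool.Agent.W353.PV.Ord
import Mathlib.LinearAlgebra.Lagrange

/-! Extraction of one weight from linear relations between point counts over the extensions whose degree
is `1` modulo `m`. -/

set_option autoImplicit false

namespace Pool.Agent.K4H20.FM

open Polynomial

theorem lin_poly {ι : Type*} (s : Finset ι) (c : ι → ℂ) (β : ι → ℕ → Multiset ℂ) {m D : ℕ}
    (hs : ∀ j : ℕ, ∑ t ∈ s, c t * ∑ k ∈ Finset.range D, (-1 : ℂ) ^ k *
      ((β t k).map fun z => z ^ (m * j + 1)).sum = 0) (g : ℂ[X]) :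
    ∑ t ∈ s, c t * ∑ k ∈ Finset.range D, (-1 : ℂ) ^ k *
      ((β t k).map fun z => z * g.eval (z ^ m)).sum = 0 := by
  induction g using Polynomial.induction_on' with
  | add p q hp hq =>
    simp only [Polynomial.eval_add, mul_add, Multiset.sum_map_add, Finset.sum_add_distrib]
    rw [hp, hq, add_zero]
  | monomial n b =>
    have h1 := hs n
    have e : ∀ z : ℂ, z * (Polynomial.monomial n b).eval (z ^ m) = b * z ^ (m * n + 1) := by
      intro z
      rw [Polynomial.eval_monomial, pow_succ, pow_mul]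
      ring
    simp only [e, Multiset.sum_map_mul_left]
    have e2 : ∑ t ∈ s, c t * ∑ k ∈ Finset.range D, (-1 : ℂ) ^ k *
        (b * ((β t k).map fun z => z ^ (m * n + 1)).sum) =
        b * ∑ t ∈ s, c t * ∑ k ∈ Finset.range D, (-1 : ℂ) ^ k *
          ((β t k).map fun z => z ^ (m * n + 1)).sum := by
      rw [Finset.mul_sum]
      refine Finset.sum_congr rfl fun t _ => ?_
      rw [mul_left_comm, Finset.mul_sum (Finset.range D) _ b]
      congr 1
      exact Finset.sum_congr rfl fun k _ => by ring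
    rw [e2, h1, mul_zero]

/-- **Extraction of a weight.** -/
theorem extract {ι : Type*} (s : Finset ι) (c : ι → ℂ) (β : ι → ℕ → Multiset ℂ) {q : ℝ}
    (hq : 1 < q) (h : ∀ t, ∀ k, ∀ z ∈ β t k, ‖z‖ = q ^ ((k : ℝ) / 2)) {m D : ℕ} (hm : 1 ≤ m)
    (hs : ∀ j : ℕ, ∑ t ∈ s, c t * ∑ k ∈ Finset.range D, (-1 : ℂ) ^ k *
      ((β t k).map fun z => z ^ (m * j + 1)).sum = 0) {i : ℕ} (hi : i < D) :
    ∑ t ∈ s, c t * (β t i).sum = 0 := by
  classical
  have hq0 : 0 < q := by linarith
  set Y : Finset ℂ := s.biUnion fun t => (Finset.range D).biUnion fun k =>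
    ((β t k).map fun z => z ^ m).toFinset with hY
  set g : ℂ[X] := Lagrange.interpolate Y id
    (fun y => if ‖y‖ = (q ^ ((i : ℝ) / 2)) ^ m then 1 else 0) with hg
  have hgY : ∀ y ∈ Y, g.eval y = if ‖y‖ = (q ^ ((i : ℝ) / 2)) ^ m then 1 else 0 := by
    intro y hy
    exact Lagrange.eval_interpolate_at_node _ (Set.injOn_id _) hy
  have hinj : ∀ k : ℕ, (q ^ ((k : ℝ) / 2)) ^ m = (q ^ ((i : ℝ) / 2)) ^ m → k = i := by
    intro k hk
    have h0 : (q ^ ((k : ℝ) / 2)) = (q ^ ((i : ℝ) / 2)) :=
      (pow_left_inj₀ (by positivity) (by positivity) (by omega)).1 hk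
    have h1 := (Real.strictMono_rpow_of_base_gt_one hq).injective h0
    have h2 : (k : ℝ) = i := by linarith
    exact_mod_cast h2
  have h1 := lin_poly s c β hs g
  have key : ∀ t ∈ s, ∑ k ∈ Finset.range D, (-1 : ℂ) ^ k *
      ((β t k).map fun z => z * g.eval (z ^ m)).sum = (-1 : ℂ) ^ i * (β t i).sum := by
    intro t ht
    have h3 : ∀ k ∈ Finset.range D, ((β t k).map fun z => z * g.eval (z ^ m)).sum =
        if k = i then (β t i).sum else 0 := by
      intro k hk
      have h4 : ∀ z ∈ β t k, z * g.eval (z ^ m) = if k = i then z else 0 := by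
        intro z hz
        have h5 : z ^ m ∈ Y := by
          rw [hY, Finset.mem_biUnion]
          refine ⟨t, ht, Finset.mem_biUnion.2 ⟨k, hk, ?_⟩⟩
          rw [Multiset.mem_toFinset, Multiset.mem_map]
          exact ⟨z, hz, rfl⟩
        rw [hgY _ h5, norm_pow, h t k z hz]
        by_cases hki : k = i
        · rw [if_pos hki, hki, if_pos rfl, mul_one]
        · rw [if_neg hki, if_neg fun h6 => hki (hinj k h6), mul_zero]
      rw [Multiset.map_congr rfl h4]
      by_cases hki : k = i
      · simp only [if_pos hki]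
        rw [Multiset.map_id', hki]
      · simp only [if_neg hki]
        simp
    rw [Finset.sum_congr rfl fun k hk => by rw [h3 k hk], Finset.sum_eq_single i]
    · rw [if_pos rfl]
    · intro k _ hki
      rw [if_neg hki, mul_zero]
    · intro h4
      exact absurd (Finset.mem_range.2 hi) h4
  rw [Finset.sum_congr rfl fun t ht => by rw [key t ht]] at h1
  have h2 : ∑ t ∈ s, c t * ((-1 : ℂ) ^ i * (β t i).sum) =
      (-1 : ℂ) ^ i * ∑ t ∈ s, c t * (β t i).sum := by
    rw [Finset.mul_sum]
    exact Finset.sum_congr rfl fun t _ => by ring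
  rw [h2] at h1
  exact (mul_eq_zero.1 h1).resolve_left (pow_ne_zero i (by norm_num))

end Pool.Agent.K4H20.FM
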