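import Pool.Agent.K4H20.FM.Ext
import Pool.Agent.K4H20.FM.Defs

/-! The Euler factors of the quotients of the forms, in terms of the forms over the residue field. -/

set_option autoImplicit false

namespace Pool.Agent.K4H20.FM

open NumberField IsDedekindDomain Polynomial ComplexConjugate
open Pool.Agent.W353.PV (mult_unique one_lt_norm)

section
variable {Γ : Type} [Group Γ]

theorem nrm_add (α : MulAut Γ) (x : Γ) (e f : ℕ) :
    nrm α x (e + f) = nrm α x e * (α ^ e) (nrm α x f) := by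
  induction e with
  | zero => simp [nrm]
  | succ e ih =>
    have h1 : e + 1 + f = (e + f) + 1 := by ring
    rw [h1]
    change x * α (nrm α x (e + f)) = x * α (nrm α x e) * (α ^ (e + 1)) (nrm α x f)
    rw [ih, map_mul, pow_succ', MulAut.mul_apply, mul_assoc]

theorem nrm_one (α : MulAut Γ) (x : Γ) : nrm α x 1 = x := by
  change x * α 1 = x
  rw [map_one, mul_one]

theorem nrm_mul {α : MulAut Γ} {m : ℕ} (hα : α ^ m = 1) (x : Γ) (j : ℕ) :
    nrm α x (m * j) = (nrm α x m) ^ j := by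
  induction j with
  | zero => simp [nrm]
  | succ j ih =>
    rw [mul_add, mul_one, nrm_add, ih, pow_mul, hα, one_pow, MulAut.one_apply, pow_succ]

/-- a common period of the norms -/
theorem exists_period [Finite Γ] (α : MulAut Γ) :
    ∃ m : ℕ, 1 ≤ m ∧ ∀ (x : Γ) (j : ℕ), nrm α x (m * j + 1) = x := by
  classical
  have hfin : Finite (MulAut Γ) := Finite.of_injective (fun f : MulAut Γ => (f : Γ → Γ))
    DFunLike.coe_injective
  obtain ⟨m₁, hm₁, hα⟩ := (isOfFinOrder_iff_pow_eq_one.1 (isOfFinOrder_of_finite α))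
  have hc : 0 < Nat.card Γ := Nat.card_pos
  refine ⟨m₁ * Nat.card Γ, Nat.mul_pos hm₁ hc, fun x j => ?_⟩
  rw [nrm_add, mul_assoc, nrm_mul hα, pow_mul, pow_card_eq_one', one_pow, one_mul, pow_mul, hα,
    one_pow, MulAut.one_apply, nrm_one]

end

theorem coeff_one_prod (S : Multiset ℂ) {P : ℂ[X]}
    (hP : ∀ z : ℂ, P.eval z = (S.map fun a => 1 - a * z).prod) : P.coeff 1 = -S.sum := by
  have h1 : P = (S.map fun a => 1 - C a * (Polynomial.X : ℂ[X])).prod := by
    refine Polynomial.funext fun z => ?_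
    rw [hP, Polynomial.eval_multiset_prod, Multiset.map_map]
    congr 1
    refine Multiset.map_congr rfl fun a _ => ?_
    simp
  rw [h1]
  clear h1 hP
  have h2 : (S.map fun a => 1 - C a * (Polynomial.X : ℂ[X])).prod.coeff 0 = 1 ∧
      (S.map fun a => 1 - C a * (Polynomial.X : ℂ[X])).prod.coeff 1 = -S.sum := by
    induction S using Multiset.induction_on with
    | empty => simp [Polynomial.coeff_one]
    | cons b s ih =>
      rw [Multiset.map_cons, Multiset.prod_cons, Multiset.sum_cons]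
      constructor
      · rw [Polynomial.mul_coeff_zero, ih.1]
        simp
      · rw [Polynomial.coeff_mul, Finset.Nat.antidiagonal_succ]
        simp [ih.1, ih.2, Polynomial.coeff_one]
  exact h2.2

section
variable {K : Type} [Field K] [NumberField K] {n : ℕ} {X : Set (MvPolynomial (Fin n) (𝓞 K))}
  {Γ : Type} [Group Γ] {a : AutGroup X Γ} {d i N : ℕ}

theorem IsCocycle.one {ξ : Gal(AlgebraicClosure K/K) → Γ} (hξ : IsCocycle a ξ) : ξ 1 = 1 := by
  have h := hξ.mul 1 1
  rw [mul_one, map_one, MulAut.one_apply] at h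
  exact (mul_eq_left.1 h.symm)

theorem IsCocycle.pow {ξ : Gal(AlgebraicClosure K/K) → Γ} (hξ : IsCocycle a ξ)
    (σ : Gal(AlgebraicClosure K/K)) (e : ℕ) : ξ (σ ^ e) = nrm (a.α σ) (ξ σ) e := by
  induction e with
  | zero => rw [pow_zero, hξ.one]; rfl
  | succ e ih =>
    rw [pow_succ', hξ.mul, ih]
    rfl

theorem conj_count (ξ : Gal(AlgebraicClosure K/K) → Γ) (Δ : Subgroup Γ) [Finite Γ]
    (Q : Ideal (𝓞 (AlgebraicClosure K))) (σ : Gal(AlgebraicClosure K/K)) (q e : ℕ) :
    conj (count a ξ Δ Q σ q e) = count a ξ Δ Q σ q e := by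
  classical
  let _ : Fintype Δ := Fintype.ofFinite _
  unfold count
  rw [finsum_eq_sum_of_fintype, map_mul, map_inv₀, Complex.conj_natCast, map_sum]
  congr 1
  exact Finset.sum_congr rfl fun δ _ => Complex.conj_natCast _

theorem pow_sub_ne {q : ℕ} (hq : (1 : ℝ) < q) {e : ℕ} (he : 1 ≤ e) : ((q : ℂ) ^ e - 1) ≠ 0 := by
  intro h5
  have h4 : (1 : ℝ) < (q : ℝ) ^ e := one_lt_pow₀ hq (by omega)
  have h6 : ((q : ℂ) ^ e) = 1 := sub_eq_zero.1 h5
  have h7 : ((q : ℝ) ^ e) = 1 := by exact_mod_cast h6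
  linarith

/-- the normalised trace -/
noncomputable def tt (i : ℕ) (P : ℂ[X]) (v : HeightOneSpectrum (𝓞 K)) : ℝ :=
  (-(P.coeff 1)).re / (Ideal.absNorm v.asIdeal : ℝ) ^ ((i : ℝ) / 2)

theorem rpos (i : ℕ) (v : HeightOneSpectrum (𝓞 K)) :
    0 < (Ideal.absNorm v.asIdeal : ℝ) ^ ((i : ℝ) / 2) := by
  have := one_lt_norm v
  exact Real.rpow_pos_of_pos (by linarith) _

theorem norm_sum_le {v : HeightOneSpectrum (𝓞 K)} {S : Multiset ℂ}
    (h1 : Multiset.card S ≤ N)
    (h2 : ∀ z ∈ S, ‖z‖ = (Ideal.absNorm v.asIdeal : ℝ) ^ ((i : ℝ) / 2)) :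
    ‖S.sum‖ ≤ N * (Ideal.absNorm v.asIdeal : ℝ) ^ ((i : ℝ) / 2) := by
  refine (norm_multiset_sum_le S).trans ?_
  have h5 : (S.map fun x => ‖x‖).sum ≤
      Multiset.card (S.map fun x => ‖x‖) • (Ideal.absNorm v.asIdeal : ℝ) ^ ((i : ℝ) / 2) := by
    refine Multiset.sum_le_card_nsmul _ _ fun y hy => ?_
    obtain ⟨z, hz, rfl⟩ := Multiset.mem_map.1 hy
    exact (h2 z hz).le
  refine h5.trans ?_
  rw [Multiset.card_map, nsmul_eq_mul]
  refine mul_le_mul_of_nonneg_right ?_ (rpos i v).le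
  exact_mod_cast h1

variable [Finite Γ]

/-- the eigenvalues of a quotient of a form: reality -/
theorem factor_real (hi : i ≤ 2 * d) {v : HeightOneSpectrum (𝓞 K)}
    {Q : Ideal (𝓞 (AlgebraicClosure K))} {σ : Gal(AlgebraicClosure K/K)}
    {ξ : Gal(AlgebraicClosure K/K) → Γ} {Δ : Subgroup Γ} {P : ℂ[X]}
    (hP : IsFactor (Ideal.absNorm v.asIdeal) d i N
      (count a ξ Δ Q σ (Ideal.absNorm v.asIdeal)) P) :
    |tt i P v| ≤ N ∧ ∃ S : Multiset ℂ, Multiset.card S ≤ N ∧
      (∀ z ∈ S, ‖z‖ = (Ideal.absNorm v.asIdeal : ℝ) ^ ((i : ℝ) / 2)) ∧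
      (∀ z : ℂ, P.eval z = (S.map fun a => 1 - a * z).prod) ∧
      S.sum = (tt i P v : ℂ) * (((Ideal.absNorm v.asIdeal : ℝ) ^ ((i : ℝ) / 2) : ℝ) : ℂ) := by
  classical
  obtain ⟨β, h1, h2, h3, h4⟩ := hP
  have hq : (1 : ℝ) < (Ideal.absNorm v.asIdeal : ℝ) := one_lt_norm v
  have hconj : β i = (β i).map conj := by
    refine mult_unique (D := 2 * d + 1) (β := β) (β' := fun k => (β k).map conj) hq h1 ?_
      (fun e he => ?_) (by omega)
    · intro k z hz
      obtain ⟨y, hy, rfl⟩ := Multiset.mem_map.1 hz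
      rw [Complex.norm_conj]
      exact h1 k y hy
    · refine mul_left_cancel₀ (pow_sub_ne hq he) ((h2 e he).symm.trans ?_)
      rw [← conj_count, h2 e he, map_mul, map_sub, map_pow, map_one, Complex.conj_natCast, map_sum]
      congr 1
      refine Finset.sum_congr rfl fun k _ => ?_
      rw [map_mul, map_pow, map_neg, map_one, map_multiset_sum, Multiset.map_map,
        Multiset.map_map]
      congr 3
      funext z
      simp
  have h5 : conj (β i).sum = (β i).sum := by rw [map_multiset_sum, ← hconj]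
  have h6 : (((β i).sum).re : ℂ) = (β i).sum := Complex.conj_eq_iff_re.1 h5
  have h7 : (β i).sum = (tt i P v : ℂ) *
      (((Ideal.absNorm v.asIdeal : ℝ) ^ ((i : ℝ) / 2) : ℝ) : ℂ) := by
    unfold tt
    rw [coeff_one_prod (β i) h4, neg_neg, ← Complex.ofReal_mul, div_mul_cancel₀ _ (rpos i v).ne',
      h6]
  refine ⟨?_, β i, h3, h1 i, h4, h7⟩
  have h8 := norm_sum_le h3 (h1 i)
  rw [h7, norm_mul, Complex.norm_real, Complex.norm_real, Real.norm_eq_abs, Real.norm_eq_abs,
    abs_of_pos (rpos i v)] at h8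
  exact le_of_mul_le_mul_right h8 (rpos i v)

/-- **The traces of all quotients of forms at one prime.** -/
theorem exists_p (hi : i ≤ 2 * d) {v : HeightOneSpectrum (𝓞 K)} (hv : GoodPrime a d i N v)
    {Q : Ideal (𝓞 (AlgebraicClosure K))} {σ : Gal(AlgebraicClosure K/K)}
    (hQ : IsFrobeniusAt v Q σ) : ∃ p : Γ → ℂ, (∀ x, ‖p x‖ ≤ N) ∧
      ∀ ξ : Gal(AlgebraicClosure K/K) → Γ, IsCocycle a ξ → ∀ (Δ : Subgroup Γ) (P : ℂ[X]),
        IsFactor (Ideal.absNorm v.asIdeal) d i N
          (count a ξ Δ Q σ (Ideal.absNorm v.asIdeal)) P →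
        (tt i P v : ℂ) = (Nat.card Δ : ℂ)⁻¹ * ∑ᶠ δ : Δ, p ((δ : Γ)⁻¹ * ξ σ) := by
  classical
  choose P' hP' using hv Q σ hQ
  choose β hβ1 hβ2 hβ3 hβ4 using hP'
  have hq : (1 : ℝ) < (Ideal.absNorm v.asIdeal : ℝ) := one_lt_norm v
  set r : ℝ := (Ideal.absNorm v.asIdeal : ℝ) ^ ((i : ℝ) / 2) with hr
  have hr0 : 0 < r := rpos i v
  have hrc : (r : ℂ) ≠ 0 := by exact_mod_cast hr0.ne'
  refine ⟨fun x => (β x i).sum / r, fun x => ?_, fun ξ hξ Δ P hP => ?_⟩
  · rw [norm_div, Complex.norm_real, Real.norm_eq_abs, abs_of_pos hr0, div_le_iff₀ hr0]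
    exact norm_sum_le (hβ3 x) (hβ1 x i)
  · let _ : Fintype Δ := Fintype.ofFinite _
    obtain ⟨-, S, hS1, hS2, hS3, hS4⟩ := factor_real hi hP
    obtain ⟨βY, h1, h2, h3, h4⟩ := hP
    obtain ⟨m, hm, hper⟩ := exists_period (a.α σ)
    have hcoef : (βY i).sum = (tt i P v : ℂ) * (r : ℂ) := by
      have e1 := coeff_one_prod (βY i) h4
      have e2 := coeff_one_prod S hS3
      rw [← hS4]
      have e3 := e1.symm.trans e2
      exact neg_injective e3
    have hext := extract (Finset.univ : Finset (Option Δ))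
      (fun t => t.elim (-1) fun _ => (Nat.card Δ : ℂ)⁻¹)
      (fun t => t.elim βY fun δ => β ((δ : Γ)⁻¹ * ξ σ)) hq (by
        intro t k z hz
        cases t with
        | none => exact h1 k z hz
        | some δ => exact hβ1 _ k z hz) hm (D := 2 * d + 1) (fun j => by
        rw [Fintype.sum_option]
        simp only [Option.elim_none, Option.elim_some]
        have he : 1 ≤ m * j + 1 := by omega
        have e1 := h2 (m * j + 1) he
        unfold count at e1
        rw [finsum_eq_sum_of_fintype, hξ.pow, hper] at e1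
        have e2 : ∀ δ : Δ, (cone X (a.A ((ξ σ)⁻¹ * δ)) Q
            (Ideal.absNorm v.asIdeal ^ (m * j + 1)) : ℂ) =
            ((Ideal.absNorm v.asIdeal : ℂ) ^ (m * j + 1) - 1) *
            ∑ k ∈ Finset.range (2 * d + 1), (-1 : ℂ) ^ k *
              ((β ((δ : Γ)⁻¹ * ξ σ) k).map (fun z => z ^ (m * j + 1))).sum := by
          intro δ
          have e3 := hβ2 ((δ : Γ)⁻¹ * ξ σ) (m * j + 1) he
          beta_reduce at e3
          rw [hper, mul_inv_rev, inv_inv] at e3
          exact e3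
        rw [Finset.sum_congr rfl fun δ _ => e2 δ, ← Finset.mul_sum, mul_left_comm] at e1
        have e4 := mul_left_cancel₀ (pow_sub_ne hq he) e1
        rw [← e4, ← Finset.mul_sum]
        ring) (i := i) (by omega)
    rw [Fintype.sum_option] at hext
    simp only [Option.elim_none, Option.elim_some] at hext
    rw [hcoef, ← Finset.mul_sum] at hext
    rw [finsum_eq_sum_of_fintype, ← Finset.sum_div, mul_div_assoc', eq_div_iff hrc]
    linear_combination -hext

end

end Pool.Agent.K4H20.FM
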