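import Pool.Agent.K4H20.FM.Orth

/-! One finite extension governs the order at the edge for all forms. -/

set_option autoImplicit false

namespace Pool.Agent.K4H20.FM

open Filter Topology NumberField IsDedekindDomain Polynomial
open Pool.Agent.W401.Cheb (GK)
open Pool.Agent.W353.EF (LFun size HasOrder)
open Pool.Agent.W353.PV (lim_ord)

section
variable {K : Type} [Field K] [NumberField K] {n : ℕ} {X : Set (MvPolynomial (Fin n) (𝓞 K))}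
  {Γ : Type} [Group Γ] {a : AutGroup X Γ} {d i N : ℕ}

theorem isCocycle_one : IsCocycle a (fun _ => 1) :=
  ⟨fun σ τ => by rw [map_one, mul_one], ⟨⊤, isOpen_univ, fun _ _ => rfl⟩⟩

variable [Fintype Γ]

/-- **A chain of forms.** -/
theorem chain (hi : i ≤ 2 * d) (r : ℕ) {ξ : ℕ → GK K → Γ}
    (hξ : ∀ j, IsCocycle a (ξ j)) {W : ℕ → Subgroup (GK K)} (hWn : ∀ j, (W j).Normal)
    (hWo : ∀ j, IsOpen (W j : Set (GK K))) (hWα : ∀ j, ∀ u ∈ W j, a.α u = 1)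
    (hWs : ∀ j, W (j + 1) ≤ W j) (hWξ : ∀ j, ∀ u ∈ W (j + 1), ξ j u = 1)
    {B B' : ℕ → HeightOneSpectrum (𝓞 K) → ℂ[X]}
    (hB : ∀ j, j < r → IsEulerSystem a d i N (ξ j) ⊥ (B j))
    (hB' : ∀ j, j < r → IsEulerSystem a d i N (ξ j)
      (Subgroup.closure (ξ j '' (W j : Set (GK K)))) (B' j)) {η : ℝ} (hη : 0 < η) :
    ∀ᶠ ε : ℝ in 𝓝[>] 0, ∑ j : Fin r, (size i (B j) ε - size i (B' j) ε) ^ 2 ≤
        (((Nat.card Γ - 1) * N ^ 2 : ℕ) : ℝ) + η := by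
  have hanti : Antitone W := antitone_nat_of_succ_le hWs
  have hVξ : ∀ j : Fin r, ∀ u ∈ W r, ξ j u = 1 := fun j u hu =>
    hWξ j u (hanti (show (j : ℕ) + 1 ≤ r from j.2) hu)
  have : (W r).Normal := hWn r
  have hfin : Finite (GK K ⧸ W r) := Subgroup.quotient_finite_of_isOpen (W r) (hWo r)
  have hlt : ∀ j l : Fin r, j < l → ∑ᶠ q : GK K ⧸ W r,
      ∑ γ, wv (ξ j q.out) (Subgroup.closure (ξ j '' (W j : Set (GK K)))) γ *
        wv (ξ l q.out) (Subgroup.closure (ξ l '' (W l : Set (GK K)))) γ = 0 := by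
    intro j l hjl
    exact orth_next (W r) (hξ j) (hξ l) (hVξ j) (hVξ l) (W l) (hWα l)
      (fun u hu => hWξ j u (hanti (show (j : ℕ) + 1 ≤ l from hjl) hu)) _
  refine (core hi (κ := Fin r) (ξ := fun j => ξ j) (fun j => hξ j)
    (Δ := fun j => Subgroup.closure (ξ j '' (W j : Set (GK K)))) (W r) (hWo r)
    (fun j => hVξ j) ?_ (B := fun j => B j) (B' := fun j => B' j) (fun j => hB j j.2)
    (fun j => hB' j j.2)).2.2 η hη
  intro j l hjl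
  rcases lt_or_gt_of_ne hjl with h | h
  · exact hlt j l h
  · exact orth_symm (W r) (hlt l j h)

/-- **The governing subgroup.** -/
theorem exists_W (a : AutGroup X Γ) (hi : i ≤ 2 * d) (N : ℕ) {k : ℕ} (hk : 1 ≤ k) :
    ∃ W : Subgroup (GK K), W.Normal ∧ IsOpen (W : Set (GK K)) ∧ (∀ u ∈ W, a.α u = 1) ∧
      W.index ≤ Nat.card a.α.range * Nat.card Γ ^ ((Nat.card Γ - 1) * (k * N) ^ 2) ∧
      ∀ ξ, IsCocycle a ξ → ∀ B B', IsEulerSystem a d i N ξ ⊥ B →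
        IsEulerSystem a d i N ξ (Subgroup.closure (ξ '' (W : Set (GK K)))) B' →
        ∃ δ : ℝ, 0 < δ ∧ ∃ᶠ ε : ℝ in 𝓝[>] 0, |size i B ε - size i B' ε| < 1 / k - δ := by
  classical
  set r₀ := (Nat.card Γ - 1) * (k * N) ^ 2 with hr₀
  by_contra hcon
  set P : Subgroup (GK K) → Prop := fun W => W.Normal ∧ IsOpen (W : Set (GK K)) ∧
    ∀ u ∈ W, a.α u = 1 with hP
  have hex : ∀ W : {W // P W}, ∃ (ξ : {ξ : GK K → Γ // IsCocycle a ξ})
      (B B' : HeightOneSpectrum (𝓞 K) → ℂ[X]),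
      W.1.index ≤ Nat.card a.α.range * Nat.card Γ ^ r₀ →
        IsEulerSystem a d i N ξ.1 ⊥ B ∧
        IsEulerSystem a d i N ξ.1 (Subgroup.closure (ξ.1 '' (W.1 : Set (GK K)))) B' ∧
        ∀ δ : ℝ, 0 < δ → ∀ᶠ ε : ℝ in 𝓝[>] 0, 1 / k - δ ≤ |size i B ε - size i B' ε| := by
    intro W
    by_cases hW : W.1.index ≤ Nat.card a.α.range * Nat.card Γ ^ r₀
    · have h1 : ¬ ∀ ξ, IsCocycle a ξ → ∀ B B', IsEulerSystem a d i N ξ ⊥ B →
          IsEulerSystem a d i N ξ (Subgroup.closure (ξ '' (W.1 : Set (GK K)))) B' →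
          ∃ δ : ℝ, 0 < δ ∧ ∃ᶠ ε : ℝ in 𝓝[>] 0,
            |size i B ε - size i B' ε| < 1 / k - δ := fun h =>
        hcon ⟨W.1, W.2.1, W.2.2.1, W.2.2.2, hW, h⟩
      push Not at h1
      obtain ⟨ξ, hξ, B, B', h2, h3, h4⟩ := h1
      exact ⟨⟨ξ, hξ⟩, B, B', fun _ => ⟨h2, h3, fun δ hδ => (h4 δ hδ).mono fun ε hε => hε⟩⟩
    · exact ⟨⟨fun _ => 1, isCocycle_one⟩, fun _ => 1, fun _ => 1, fun h => absurd h hW⟩
  choose f B B' hf using hex
  have hnext : ∀ W : {W // P W}, P (nextW (f W).2 W.1) := fun W =>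
    ⟨nextW_normal (f W).2 W.2.1 W.2.2.2, nextW_open (f W).2 W.2.2.1,
      fun u hu => W.2.2.2 u hu.1⟩
  have hker : P a.α.ker := ⟨inferInstance, a.isOpen_ker, fun u hu => hu⟩
  set W : ℕ → {W // P W} := fun j => Nat.rec ⟨a.α.ker, hker⟩
    (fun _ w => ⟨nextW (f w).2 w.1, hnext w⟩) j with hW
  have hW0 : (W 0).1 = a.α.ker := rfl
  have hWsucc : ∀ j, (W (j + 1)).1 = nextW (f (W j)).2 (W j).1 := fun j => rfl
  have hcardΓ : 1 ≤ Nat.card Γ := Nat.card_pos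
  have hindex : ∀ j, (W j).1.index ≤ Nat.card a.α.range * Nat.card Γ ^ j := by
    intro j
    induction j with
    | zero => rw [hW0, Subgroup.index_ker, pow_zero, mul_one]
    | succ j ih =>
      rw [hWsucc]
      refine (nextW_index (f (W j)).2 (W j).2.2.2).trans ?_
      rw [pow_succ, ← mul_assoc]
      exact Nat.mul_le_mul_right _ ih
  have hbad : ∀ j, j < r₀ + 1 → _ := fun j hj => hf (W j) ((hindex j).trans
    (Nat.mul_le_mul_left _ (Nat.pow_le_pow_right hcardΓ (Nat.lt_succ_iff.1 hj))))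
  have hkr : (0 : ℝ) < k := by exact_mod_cast hk
  have hr0' : ((r₀ : ℕ) : ℝ) = (k : ℝ) ^ 2 * (((Nat.card Γ - 1) * N ^ 2 : ℕ) : ℝ) := by
    rw [hr₀]
    push_cast
    ring
  have h1 := chain hi (r₀ + 1) (ξ := fun j => (f (W j)).1) (fun j => (f (W j)).2)
    (W := fun j => (W j).1) (fun j => (W j).2.1) (fun j => (W j).2.2.1)
    (fun j => (W j).2.2.2) (fun j => nextW_le (f (W j)).2 (W j).1) (fun j u hu => hu.2)
    (B := fun j => B (W j)) (B' := fun j => B' (W j)) (fun j hj => (hbad j hj).1)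
    (fun j hj => (hbad j hj).2.1) (η := 1 / (4 * (k : ℝ) ^ 2)) (by positivity)
  set δ : ℝ := 1 / (4 * k * (r₀ + 1)) with hδ
  have hδ0 : 0 < δ := by positivity
  have h2 : ∀ᶠ ε : ℝ in 𝓝[>] 0, ∀ j : Fin (r₀ + 1),
      1 / k - δ ≤ |size i (B (W j)) ε - size i (B' (W j)) ε| := by
    rw [Filter.eventually_all]
    exact fun j => (hbad j j.2).2.2 δ hδ0
  obtain ⟨ε, h3, h4⟩ := (h1.and h2).exists
  have h5 : ∑ _j : Fin (r₀ + 1), (1 / (k : ℝ) ^ 2 - 2 * δ / k) ≤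
      ∑ j : Fin (r₀ + 1), (size i (B (W j)) ε - size i (B' (W j)) ε) ^ 2 := by
    refine Finset.sum_le_sum fun j _ => ?_
    have h6 := h4 j
    have h7 : δ ≤ 1 / k := by
      rw [hδ]
      refine div_le_div_of_nonneg_left zero_le_one hkr ?_
      have : (0 : ℝ) ≤ r₀ := Nat.cast_nonneg _
      nlinarith
    have h8 : (1 / (k : ℝ) - δ) ^ 2 ≤ |size i (B (W j)) ε - size i (B' (W j)) ε| ^ 2 :=
      pow_le_pow_left₀ (by linarith) h6 2
    refine le_trans ?_ (h8.trans (le_of_eq (sq_abs _)))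
    have h9 : (1 / (k : ℝ) - δ) ^ 2 = 1 / (k : ℝ) ^ 2 - 2 * δ / k + δ ^ 2 := by
      field_simp
      ring
    rw [h9]
    nlinarith [sq_nonneg δ]
  rw [Finset.sum_const, Finset.card_univ, Fintype.card_fin, nsmul_eq_mul] at h5
  have h6 := h5.trans h3
  have h7 : (((r₀ + 1 : ℕ) : ℝ)) * (1 / (k : ℝ) ^ 2 - 2 * δ / k) =
      (r₀ : ℝ) / (k : ℝ) ^ 2 + 1 / (2 * (k : ℝ) ^ 2) := by
    rw [hδ]
    push_cast
    field_simp
    ring
  rw [h7, hr0'] at h6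
  have h8 : (k : ℝ) ^ 2 * (((Nat.card Γ - 1) * N ^ 2 : ℕ) : ℝ) / (k : ℝ) ^ 2 =
      (((Nat.card Γ - 1) * N ^ 2 : ℕ) : ℝ) := by
    field_simp
  rw [h8] at h6
  have h9 : 1 / (4 * (k : ℝ) ^ 2) < 1 / (2 * (k : ℝ) ^ 2) := by
    rw [div_lt_div_iff₀ (by positivity) (by positivity)]
    nlinarith [sq_pos_of_pos hkr]
  linarith

/-- nonvanishing near the edge for a pair -/
theorem nz_pair (hi : i ≤ 2 * d) {ξ : GK K → Γ} (hξ : IsCocycle a ξ) {Δ : Subgroup Γ}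
    {B B' : HeightOneSpectrum (𝓞 K) → ℂ[X]} (hB : IsEulerSystem a d i N ξ ⊥ B)
    (hB' : IsEulerSystem a d i N ξ Δ B') :
    (∀ᶠ ε : ℝ in 𝓝[>] 0, LFun B ((i : ℂ) / 2 + 1 + ε) ≠ 0) ∧
    (∀ᶠ ε : ℝ in 𝓝[>] 0, LFun B' ((i : ℂ) / 2 + 1 + ε) ≠ 0) := by
  have hn : (nextW hξ a.α.ker).Normal := nextW_normal hξ inferInstance fun u hu => hu
  have h := core (N := N) hi (κ := Unit) (ξ := fun _ => ξ) (fun _ => hξ) (Δ := fun _ => Δ)
    (nextW hξ a.α.ker) (nextW_open hξ a.isOpen_ker) (fun _ u hu => hu.2)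
    (fun k l hkl => absurd (Subsingleton.elim k l) hkl) (B := fun _ => B) (B' := fun _ => B')
    (fun _ => hB) (fun _ => hB')
  exact ⟨h.1 (), h.2.1 ()⟩

omit [Fintype Γ] in
/-- the size tends to minus the order -/
theorem size_lim {B : HeightOneSpectrum (𝓞 K) → ℂ[X]}
    (hB : ∀ᶠ ε : ℝ in 𝓝[>] 0, LFun B ((i : ℂ) / 2 + 1 + ε) ≠ 0) {m : ℤ} (hm : HasOrder i B m) :
    Tendsto (size i B) (𝓝[>] 0) (𝓝 (-(m : ℝ))) := by
  obtain ⟨Λ, h1, h2, h3⟩ := hm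
  refine lim_ord hB h1 (h2.mono fun s hs hs' => hs ?_) h3
  have e : ((i : ℂ) / 2 + 1).re = (i : ℝ) / 2 + 1 := by
    have : ((i : ℂ) / 2 + 1) = (((i : ℝ) / 2 + 1 : ℝ) : ℂ) := by push_cast; ring
    rw [this, Complex.ofReal_re]
  rwa [e] at hs'

/-- equality of the orders -/
theorem order_eq {B B' : HeightOneSpectrum (𝓞 K) → ℂ[X]}
    (hB : ∀ᶠ ε : ℝ in 𝓝[>] 0, LFun B ((i : ℂ) / 2 + 1 + ε) ≠ 0)
    (hB' : ∀ᶠ ε : ℝ in 𝓝[>] 0, LFun B' ((i : ℂ) / 2 + 1 + ε) ≠ 0) {k : ℕ} (hk : 1 ≤ k)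
    {δ : ℝ} (hδ : 0 < δ) (h : ∃ᶠ ε : ℝ in 𝓝[>] 0, |size i B ε - size i B' ε| < 1 / k - δ)
    {m m' : ℤ} (hm : HasOrder i B m) (hm' : HasOrder i B' m') : m = m' := by
  by_contra hne
  have h1 : Tendsto (fun ε => |size i B ε - size i B' ε|) (𝓝[>] 0) (𝓝 |-(m : ℝ) - -(m' : ℝ)|) :=
    ((size_lim hB hm).sub (size_lim hB' hm')).abs
  have h2 : (1 : ℝ) ≤ |-(m : ℝ) - -(m' : ℝ)| := by
    have h3 : (1 : ℤ) ≤ |m' - m| := Int.one_le_abs (sub_ne_zero.2 (Ne.symm hne))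
    have h4 : ((1 : ℤ) : ℝ) ≤ ((|m' - m| : ℤ) : ℝ) := by exact_mod_cast h3
    rw [Int.cast_one, Int.cast_abs, Int.cast_sub] at h4
    have e : -(m : ℝ) - -(m' : ℝ) = (m' : ℝ) - m := by ring
    rw [e]
    exact h4
  have h5 : (1 : ℝ) / k ≤ 1 := by
    rw [div_le_one (by exact_mod_cast hk)]
    exact_mod_cast hk
  have h6 : (1 : ℝ) / k - δ < |-(m : ℝ) - -(m' : ℝ)| := by linarith
  have h7 := h1.eventually_const_lt h6
  obtain ⟨ε, h8, h9⟩ := (h.and_eventually h7).exists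
  linarith

/-- **Finitely many L-functions.** -/
theorem finite_systems (a : AutGroup X Γ) (d i N : ℕ) {W : Subgroup (GK K)} (hWn : W.Normal)
    (hWo : IsOpen (W : Set (GK K))) (hWα : ∀ u ∈ W, a.α u = 1) :
    {P : (HeightOneSpectrum (𝓞 K) → ℂ[X]) → Prop | ∃ ξ, IsCocycle a ξ ∧
      P = IsEulerSystem a d i N ξ (Subgroup.closure (ξ '' (W : Set (GK K))))}.Finite := by
  classical
  have hfin : Finite (GK K ⧸ W) := Subgroup.quotient_finite_of_isOpen W hWo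
  set cnt : Set Γ → Ideal (𝓞 (AlgebraicClosure K)) → ℕ → ℂ := fun T Q m =>
    (Nat.card T : ℂ)⁻¹ * ∑ᶠ γ : T, (cone X (a.A γ) Q m : ℂ) with hcnt
  set Φ : (GK K ⧸ W → Set Γ) → (HeightOneSpectrum (𝓞 K) → ℂ[X]) → Prop := fun c B =>
    (∀ᶠ v in cofinite, GoodPrime a d i N v ∧ ∀ Q σ, IsFrobeniusAt v Q σ →
      IsFactor (Ideal.absNorm v.asIdeal) d i N
        (fun e => cnt (c (QuotientGroup.mk (σ ^ e))) Q (Ideal.absNorm v.asIdeal ^ e)) (B v)) ∧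
    ∀ v, (B v).eval ((Ideal.absNorm v.asIdeal : ℂ) ^ (-((i : ℂ) / 2 + 1))) ≠ 0 with hΦ
  refine (Set.finite_range Φ).subset ?_
  rintro P ⟨ξ, hξ, rfl⟩
  set Δ := Subgroup.closure (ξ '' (W : Set (GK K))) with hΔ
  set c : GK K ⧸ W → Set Γ := fun q => {γ | ξ q.out * γ ∈ Δ} with hc
  refine ⟨c, ?_⟩
  have hcg : ∀ g : GK K, c (QuotientGroup.mk g) = {γ | ξ g * γ ∈ Δ} := by
    intro g
    have h1 : (QuotientGroup.mk g : GK K ⧸ W) = QuotientGroup.mk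
        ((QuotientGroup.mk g : GK K ⧸ W).out) := (QuotientGroup.out_eq' _).symm
    have h2 := QuotientGroup.eq.1 h1
    rw [hc]
    simp only
    set g' := (QuotientGroup.mk g : GK K ⧸ W).out
    have h3 : g' = (g * (g⁻¹ * g') * g⁻¹) * g := by group
    have h4 : g * (g⁻¹ * g') * g⁻¹ ∈ W := hWn.conj_mem _ h2 g
    have h5 : ξ g' = ξ (g * (g⁻¹ * g') * g⁻¹) * ξ g := by
      conv_lhs => rw [h3]
      exact hξ.mul_left _ _ (hWα _ h4)
    have h6 : ξ (g * (g⁻¹ * g') * g⁻¹) ∈ Δ := Subgroup.subset_closure ⟨_, h4, rfl⟩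
    ext γ
    change ξ g' * γ ∈ Δ ↔ ξ g * γ ∈ Δ
    rw [h5, mul_assoc]
    exact Δ.mul_mem_cancel_left h6
  have hcount : ∀ (Q : Ideal (𝓞 (AlgebraicClosure K))) (σ : GK K) (q : ℕ),
      (fun e => cnt (c (QuotientGroup.mk (σ ^ e))) Q (q ^ e)) = count a ξ Δ Q σ q := by
    intro Q σ q
    funext e
    rw [hcg, hcnt]
    simp only
    unfold count
    set E : Δ ≃ {γ | ξ (σ ^ e) * γ ∈ Δ} :=
      { toFun := fun δ => ⟨(ξ (σ ^ e))⁻¹ * δ, by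
          change ξ (σ ^ e) * ((ξ (σ ^ e))⁻¹ * (δ : Γ)) ∈ Δ
          rw [mul_inv_cancel_left]
          exact δ.2⟩
        invFun := fun γ => ⟨ξ (σ ^ e) * γ, γ.2⟩
        left_inv := fun δ => Subtype.ext (mul_inv_cancel_left _ _)
        right_inv := fun γ => Subtype.ext (inv_mul_cancel_left _ _) } with hE
    rw [← Nat.card_congr E, ← finsum_comp_equiv E]
    rfl
  rw [hΦ]
  funext B
  simp only [hcount]
  rfl

omit [Fintype Γ] in
/-- The quotient by the whole group does not depend on the form. -/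
theorem count_top [Finite Γ] (ξ ξ' : GK K → Γ) (Q : Ideal (𝓞 (AlgebraicClosure K))) (σ : GK K)
    (q e : ℕ) : count a ξ ⊤ Q σ q e = count a ξ' ⊤ Q σ q e := by
  have h : ∀ x : Γ, ∑ᶠ δ : (⊤ : Subgroup Γ), (cone X (a.A (x⁻¹ * δ)) Q (q ^ e) : ℂ) =
      ∑ᶠ δ : (⊤ : Subgroup Γ), (cone X (a.A (δ : Γ)) Q (q ^ e) : ℂ) := by
    intro x
    exact finsum_comp_equiv (Equiv.mulLeft (⟨x⁻¹, Subgroup.mem_top _⟩ : (⊤ : Subgroup Γ)))
      (f := fun δ : (⊤ : Subgroup Γ) => (cone X (a.A (δ : Γ)) Q (q ^ e) : ℂ))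
  unfold count
  rw [h, h]

omit [Fintype Γ] in
theorem system_top [Finite Γ] {ξ : GK K → Γ} (ξ' : GK K → Γ)
    {B : HeightOneSpectrum (𝓞 K) → ℂ[X]} (h : IsEulerSystem a d i N ξ ⊤ B) :
    IsEulerSystem a d i N ξ' ⊤ B := by
  refine ⟨h.1.mono fun v hv => ⟨hv.1, fun Q σ hQ => ?_⟩, h.2⟩
  have h1 := hv.2 Q σ hQ
  have e : count a ξ' ⊤ Q σ (Ideal.absNorm v.asIdeal) =
      count a ξ ⊤ Q σ (Ideal.absNorm v.asIdeal) := by
    funext e
    exact count_top ξ' ξ Q σ _ e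
  rw [e]
  exact h1

end

end Pool.Agent.K4H20.FM
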