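import Pool.Agent.K4H20.FM.Gov

/-! The two theorems on forms. -/

set_option autoImplicit false

namespace Pool.Agent.K4H20.FM

open Filter Topology NumberField IsDedekindDomain Polynomial
open Pool.Agent.W401.Cheb (GK)
open Pool.Agent.W353.EF (LFun size HasOrder)

section
variable {K : Type} [Field K] [NumberField K] {n : ℕ} {X : Set (MvPolynomial (Fin n) (𝓞 K))}
  {Γ : Type} [Group Γ] {a : AutGroup X Γ} {d i N : ℕ}

omit [NumberField K] in
/-- the field of an open normal subgroup -/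
theorem exists_field {W : Subgroup (GK K)} (hWn : W.Normal) (hWo : IsOpen (W : Set (GK K)))
    [CharZero K] :
    ∃ M : IntermediateField K (AlgebraicClosure K), FiniteDimensional K M ∧ IsGalois K M ∧
      M.fixingSubgroup = W ∧ Module.finrank K M = W.index := by
  set M : IntermediateField K (AlgebraicClosure K) := IntermediateField.fixedField W with hM
  have h1 : M.fixingSubgroup = W :=
    InfiniteGalois.fixingSubgroup_fixedField ⟨W, W.isClosed_of_isOpen hWo⟩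
  have h2 : FiniteDimensional K M ∧ IsGalois K M := by
    rw [← InfiniteGalois.isOpen_and_normal_iff_finite_and_isGalois, h1]
    exact ⟨hWo, hWn⟩
  have h3 := h2.1
  refine ⟨M, h2.1, h2.2, h1, ?_⟩
  rw [IntermediateField.finrank_eq_fixingSubgroup_index, h1]

/-- the constant polynomial has the order zero -/
theorem order_one {m : ℤ} (h : HasOrder (F := K) i (fun _ => 1) m) : m = 0 := by
  have hL : ∀ s, LFun (F := K) (fun _ => (1 : ℂ[X])) s = 1 := by
    intro s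
    unfold LFun
    simp
  have h1 := size_lim (K := K) (i := i) (B := fun _ => 1)
    (Eventually.of_forall fun ε => by rw [hL]; exact one_ne_zero) h
  have h2 : size (F := K) i (fun _ => 1) = fun _ => 0 := by
    funext ε
    unfold size
    rw [hL, norm_one, Real.log_one, zero_div]
  rw [h2] at h1
  have h3 := tendsto_nhds_unique h1 tendsto_const_nhds
  have h4 : (m : ℝ) = 0 := by linarith
  exact_mod_cast h4

/-- **One finite extension governs the vanishing at the edge for all forms.** -/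
theorem governed [Finite Γ] (a : AutGroup X Γ) (hi : i ≤ 2 * d) (N : ℕ) {k : ℕ} (hk : 1 ≤ k) :
    ∃ M : IntermediateField K (AlgebraicClosure K), FiniteDimensional K M ∧ IsGalois K M ∧
      (∀ σ ∈ M.fixingSubgroup, a.α σ = 1) ∧
      Module.finrank K M ≤
        Nat.card a.α.range * Nat.card Γ ^ ((Nat.card Γ - 1) * (k * N) ^ 2) ∧
      (∀ ξ, IsCocycle a ξ → ∀ B B', IsEulerSystem a d i N ξ ⊥ B →
        IsEulerSystem a d i N ξ (image ξ M) B' →
        (∃ᶠ ε : ℝ in 𝓝[>] 0, |size i B ε - size i B' ε| < 1 / k) ∧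
        ∀ m m' : ℤ, HasOrder i B m → HasOrder i B' m' → m = m') ∧
      {P | ∃ ξ, IsCocycle a ξ ∧ P = IsEulerSystem a d i N ξ (image ξ M)}.Finite ∧
      (∀ ξ, IsCocycle a ξ → image ξ M = ⊤ → IsEulerSystem a d i N ξ ⊤ (fun _ => 1) →
        ∀ B, IsEulerSystem a d i N ξ ⊥ B → ∀ m : ℤ, HasOrder i B m → m = 0) := by
  classical
  let _ : Fintype Γ := Fintype.ofFinite _
  obtain ⟨W, hWn, hWo, hWα, hWi, hW⟩ := exists_W a hi N hk
  obtain ⟨M, hM1, hM2, hM3, hM4⟩ := exists_field hWn hWo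
  have him : ∀ ξ : GK K → Γ, image ξ M = Subgroup.closure (ξ '' (W : Set (GK K))) := by
    intro ξ
    unfold image
    rw [hM3]
  have hgov : ∀ ξ, IsCocycle a ξ → ∀ B B', IsEulerSystem a d i N ξ ⊥ B →
      IsEulerSystem a d i N ξ (image ξ M) B' →
      (∃ᶠ ε : ℝ in 𝓝[>] 0, |size i B ε - size i B' ε| < 1 / k) ∧
      ∀ m m' : ℤ, HasOrder i B m → HasOrder i B' m' → m = m' := by
    intro ξ hξ B B' hB hB'
    rw [him] at hB'
    obtain ⟨δ, hδ, hf⟩ := hW ξ hξ B B' hB hB'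
    obtain ⟨h1, h2⟩ := nz_pair hi hξ hB hB'
    exact ⟨hf.mono fun ε hε => by linarith, fun m m' hm hm' => order_eq h1 h2 hk hδ hf hm hm'⟩
  refine ⟨M, hM1, hM2, fun σ hσ => hWα σ (by rw [← hM3]; exact hσ), ?_, hgov, ?_, ?_⟩
  · rw [hM4]
    exact hWi
  · simp only [him]
    exact finite_systems a d i N hWn hWo hWα
  · intro ξ hξ htop h1 B hB m hm
    rw [← htop] at h1
    have h2 := (hgov ξ hξ B (fun _ => 1) hB h1).2
    have h3 : HasOrder (F := K) i (fun _ => 1) 0 := by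
      have hL : ∀ s, LFun (F := K) (fun _ => (1 : ℂ[X])) s = 1 := by
        intro s
        unfold LFun
        simp
      refine ⟨fun _ => 1, MeromorphicAt.const 1 _, ?_, ?_⟩
      · filter_upwards with s _
        rw [hL]
      · have := meromorphicOrderAt_const ((i : ℂ) / 2 + 1) (1 : ℂ)
        rw [this, if_neg one_ne_zero]
        rfl
    exact h2 m 0 hm h3

/-- **Disjoint forms.** -/
theorem disjointForms [Finite Γ] (hi : i ≤ 2 * d) {κ : Type} [Fintype κ]
    {ξ : κ → GK K → Γ} (hξ : ∀ k, IsCocycle a (ξ k))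
    (hdis : ∀ k l, k ≠ l → ∀ γ : Γ, ∃ σ, ξ k σ = γ * ξ l σ)
    {B : κ → HeightOneSpectrum (𝓞 K) → ℂ[X]} {B₀ : HeightOneSpectrum (𝓞 K) → ℂ[X]}
    (hB : ∀ k, IsEulerSystem a d i N (ξ k) ⊥ (B k))
    (hB₀ : IsEulerSystem a d i N (fun _ => 1) ⊤ B₀) :
    (∀ η : ℝ, 0 < η → ∀ᶠ ε : ℝ in 𝓝[>] 0, ∑ k, (size i (B k) ε - size i B₀ ε) ^ 2 ≤
      (((Nat.card Γ - 1) * N ^ 2 : ℕ) : ℝ) + η) ∧
    ∀ (m : κ → ℤ) (m₀ : ℤ), (∀ k, HasOrder i (B k) (m k)) → HasOrder i B₀ m₀ →
      ∑ k, (m k - m₀) ^ 2 ≤ (((Nat.card Γ - 1) * N ^ 2 : ℕ) : ℤ) := by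
  classical
  let _ : Fintype Γ := Fintype.ofFinite _
  -- a common open normal subgroup
  set V : Subgroup (GK K) := ⨅ k, nextW (hξ k) a.α.ker with hVd
  have hVk : ∀ k, ∀ u ∈ V, ξ k u = 1 := fun k u hu => ((Subgroup.mem_iInf.1 hu) k).2
  have hVn : V.Normal := by
    refine ⟨fun u hu g => ?_⟩
    rw [Subgroup.mem_iInf] at hu ⊢
    exact fun k => (nextW_normal (hξ k) (W := a.α.ker) inferInstance fun u hu => hu).conj_mem u
      (hu k) g
  have hVo : IsOpen (V : Set (GK K)) := by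
    rw [hVd, Subgroup.coe_iInf]
    exact isOpen_iInter_of_finite fun k => nextW_open (hξ k) a.isOpen_ker
  have hfin : Finite (GK K ⧸ V) := Subgroup.quotient_finite_of_isOpen V hVo
  have hcore := core hi (N := N) hξ (Δ := fun _ => ⊤) V hVo hVk
    (fun k l hkl => orth_top V (hξ k) (hξ l) (hVk k) (hVk l) (hdis k l hkl)) hB
    (fun k => system_top (ξ k) hB₀)
  refine ⟨hcore.2.2, fun m m₀ hm hm₀ => ?_⟩
  have hlim : Tendsto (fun ε => ∑ k, (size i (B k) ε - size i B₀ ε) ^ 2) (𝓝[>] 0)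
      (𝓝 (∑ k, (-(m k : ℝ) - -(m₀ : ℝ)) ^ 2)) := by
    refine tendsto_finsetSum Finset.univ fun k _ => ?_
    exact ((size_lim (hcore.1 k) (hm k)).sub (size_lim (hcore.2.1 k) hm₀)).pow 2
  have h1 : ∑ k, (-(m k : ℝ) - -(m₀ : ℝ)) ^ 2 ≤ (((Nat.card Γ - 1) * N ^ 2 : ℕ) : ℝ) := by
    refine le_of_forall_pos_le_add fun η hη => ?_
    exact le_of_tendsto hlim (hcore.2.2 η hη)
  have h2 : ∑ k, (-(m k : ℝ) - -(m₀ : ℝ)) ^ 2 = ((∑ k, (m k - m₀) ^ 2 : ℤ) : ℝ) := by
    push_cast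
    exact Finset.sum_congr rfl fun k _ => by ring
  rw [h2] at h1
  exact_mod_cast h1

end

end Pool.Agent.K4H20.FM
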