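import Pool.Agent.K4H20.FM.Coc

/-! Orthogonality of the vector functions of forms. -/

set_option autoImplicit false

namespace Pool.Agent.K4H20.FM

open Filter Topology NumberField IsDedekindDomain Polynomial
open Pool.Agent.W401.Cheb (GK)

section
variable {K : Type} [Field K] [NumberField K] {n : ℕ} {X : Set (MvPolynomial (Fin n) (𝓞 K))}
  {Γ : Type} [Group Γ] {a : AutGroup X Γ}

theorem out_mul (V : Subgroup (GK K)) [V.Normal] {ξ : GK K → Γ} (hξ : IsCocycle a ξ)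
    (hV : ∀ u ∈ V, ξ u = 1) (g : GK K) (q : GK K ⧸ V) :
    ξ (QuotientGroup.mk g * q : GK K ⧸ V).out = ξ (g * q.out) := by
  have h1 : (QuotientGroup.mk g * q : GK K ⧸ V) = QuotientGroup.mk (g * q.out) := by
    conv_lhs => rw [← QuotientGroup.out_eq' q]
    rfl
  rw [h1]
  have h2 : (QuotientGroup.mk (g * q.out) : GK K ⧸ V) = QuotientGroup.mk
      ((QuotientGroup.mk (g * q.out) : GK K ⧸ V).out) := (QuotientGroup.out_eq' _).symm
  have h3 := QuotientGroup.eq.1 h2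
  set g' := (QuotientGroup.mk (g * q.out) : GK K ⧸ V).out
  have h4 : g' = (g * q.out) * ((g * q.out)⁻¹ * g') := by group
  rw [h4, hξ.mul, hV _ h3, map_one, mul_one]

variable [Fintype Γ]

/-- **Disjoint forms.** -/
theorem orth_top (V : Subgroup (GK K)) [V.Normal] [Finite (GK K ⧸ V)] {ξ ξ' : GK K → Γ}
    (hξ : IsCocycle a ξ) (hξ' : IsCocycle a ξ') (hV : ∀ u ∈ V, ξ u = 1)
    (hV' : ∀ u ∈ V, ξ' u = 1) (hdis : ∀ γ : Γ, ∃ σ, ξ σ = γ * ξ' σ) :
    ∑ᶠ q : GK K ⧸ V, ∑ γ, wv (ξ q.out) ⊤ γ * wv (ξ' q.out) ⊤ γ = 0 := by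
  classical
  let _ : Fintype (GK K ⧸ V) := Fintype.ofFinite _
  let _ : Fintype (⊤ : Subgroup Γ) := Fintype.ofFinite _
  rw [finsum_eq_sum_of_fintype]
  set D : GK K ⧸ V → Γ := fun q => ξ q.out * (ξ' q.out)⁻¹ with hD
  -- the fibres
  have hfib : ∀ γ : Γ, (Finset.univ.filter fun q => D q = γ).card =
      (Finset.univ.filter fun q => D q = 1).card := by
    intro γ
    obtain ⟨τ, hτ⟩ := hdis γ
    have hγ : γ = ξ τ * (ξ' τ)⁻¹ := by rw [hτ, mul_inv_cancel_right]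
    have hDτ : ∀ q, D (QuotientGroup.mk τ * q) = ξ τ * a.α τ (D q) * (ξ' τ)⁻¹ := by
      intro q
      rw [hD]
      simp only
      rw [out_mul V hξ hV, out_mul V hξ' hV', hξ.mul, hξ'.mul, map_mul, map_inv]
      group
    symm
    refine Finset.card_bij (fun q _ => QuotientGroup.mk τ * q) ?_ ?_ ?_
    · intro q hq
      rw [Finset.mem_filter] at hq ⊢
      refine ⟨Finset.mem_univ _, ?_⟩
      rw [hDτ, hq.2, map_one, mul_one, ← hγ]
    · intro q _ q' _ h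
      exact mul_left_cancel h
    · intro q hq
      rw [Finset.mem_filter] at hq
      refine ⟨(QuotientGroup.mk τ)⁻¹ * q, ?_, mul_inv_cancel_left _ _⟩
      rw [Finset.mem_filter]
      refine ⟨Finset.mem_univ _, ?_⟩
      have h1 := hDτ ((QuotientGroup.mk τ)⁻¹ * q)
      rw [mul_inv_cancel_left, hq.2, hγ] at h1
      have h2 : a.α τ (D ((QuotientGroup.mk τ)⁻¹ * q)) = 1 := by
        have h3 := mul_right_cancel h1
        exact (mul_eq_left.1 h3.symm)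
      exact (MulEquiv.map_eq_one_iff (a.α τ)).1 h2
  have hcount : (Fintype.card (GK K ⧸ V) : ℝ) =
      Nat.card Γ * (Finset.univ.filter fun q => D q = 1).card := by
    have h1 : Fintype.card (GK K ⧸ V) = ∑ γ : Γ, (Finset.univ.filter fun q => D q = γ).card := by
      rw [← Finset.card_univ]
      exact Finset.card_eq_sum_card_fiberwise fun q _ => Finset.mem_univ (D q)
    rw [Finset.sum_congr rfl fun γ _ => hfib γ, Finset.sum_const, Finset.card_univ,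
      smul_eq_mul] at h1
    rw [h1, Nat.card_eq_fintype_card]
    push_cast
    rfl
  have hcΓ : (Nat.card Γ : ℝ) ≠ 0 := by
    have : 0 < Nat.card Γ := Nat.card_pos
    exact_mod_cast this.ne'
  have hctop : (Nat.card (⊤ : Subgroup Γ) : ℝ) = Nat.card Γ := by
    rw [Subgroup.card_top]
  have hterm : ∀ q : GK K ⧸ V, ∑ γ, wv (ξ q.out) ⊤ γ * wv (ξ' q.out) ⊤ γ =
      (if D q = 1 then 1 else 0) - (Nat.card Γ : ℝ)⁻¹ := by
    intro q
    have h1 : ∀ x γ : Γ, wv x (⊤ : Subgroup Γ) γ =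
        (if γ = x then 1 else 0) - (Nat.card Γ : ℝ)⁻¹ := by
      intro x γ
      unfold wv
      rw [if_pos (Subgroup.mem_top _), mul_one, hctop]
    rw [sum_wv]
    have h2 : ∑ δ : (⊤ : Subgroup Γ), wv (ξ q.out) ⊤ (δ * ξ' q.out) = 0 := by
      rw [← sum_coset (ξ' q.out) ⊤ (wv (ξ q.out) ⊤)]
      have h3 : ∀ γ : Γ, (if γ * (ξ' q.out)⁻¹ ∈ (⊤ : Subgroup Γ) then wv (ξ q.out) ⊤ γ else 0) =
          if γ * (ξ q.out)⁻¹ ∈ (⊤ : Subgroup Γ) then wv (ξ q.out) ⊤ γ else 0 := by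
        intro γ
        rw [if_pos (Subgroup.mem_top _), if_pos (Subgroup.mem_top _)]
      rw [Finset.sum_congr rfl fun γ _ => h3 γ, sum_coset, sum_wv_coset]
    rw [h2, mul_zero, sub_zero, h1]
    have h4 : (ξ' q.out = ξ q.out) ↔ D q = 1 := by
      rw [hD]
      simp only
      rw [mul_inv_eq_one]
      exact eq_comm
    simp only [h4]
  rw [Finset.sum_congr rfl fun q _ => hterm q, Finset.sum_sub_distrib, Finset.sum_boole,
    Finset.sum_const, Finset.card_univ, nsmul_eq_mul, hcount]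
  field_simp
  ring

/-- **Successive forms.** -/
theorem orth_next (V : Subgroup (GK K)) [V.Normal] [Finite (GK K ⧸ V)] {ξ ξ' : GK K → Γ}
    (hξ : IsCocycle a ξ) (hξ' : IsCocycle a ξ') (hV : ∀ u ∈ V, ξ u = 1)
    (hV' : ∀ u ∈ V, ξ' u = 1) (W : Subgroup (GK K)) (hW : ∀ u ∈ W, a.α u = 1)
    (hWξ : ∀ u ∈ W, ξ u = 1) (Δ : Subgroup Γ) :
    ∑ᶠ q : GK K ⧸ V, ∑ γ, wv (ξ q.out) Δ γ *
      wv (ξ' q.out) (Subgroup.closure (ξ' '' (W : Set (GK K)))) γ = 0 := by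
  classical
  let _ : Fintype (GK K ⧸ V) := Fintype.ofFinite _
  set Δ' := Subgroup.closure (ξ' '' (W : Set (GK K))) with hΔ'
  let _ : Fintype Δ' := Fintype.ofFinite _
  rw [finsum_eq_sum_of_fintype]
  set T : ℝ := ∑ q : GK K ⧸ V, ∑ γ, wv (ξ q.out) Δ γ * wv (ξ' q.out) Δ' γ with hT
  have key : ∀ δ : Δ', T = ∑ q : GK K ⧸ V, ∑ γ, wv (ξ q.out) Δ γ *
      wv ((δ : Γ) * ξ' q.out) Δ' γ := by
    intro δ
    obtain ⟨u, hu, hu1⟩ := (mem_closure_iff hξ' hW).1 δ.2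
    rw [hT, ← Equiv.sum_comp (Equiv.mulLeft (QuotientGroup.mk u : GK K ⧸ V))]
    refine Finset.sum_congr rfl fun q _ => ?_
    have e1 : ξ (QuotientGroup.mk u * q : GK K ⧸ V).out = ξ q.out := by
      rw [out_mul V hξ hV, hξ.mul_left u _ (hW u hu), hWξ u hu, one_mul]
    have e2 : ξ' (QuotientGroup.mk u * q : GK K ⧸ V).out = (δ : Γ) * ξ' q.out := by
      rw [out_mul V hξ' hV', hξ'.mul_left u _ (hW u hu), hu1]
    rw [Equiv.coe_mulLeft, e1, e2]
  have h1 : (Nat.card Δ' : ℝ) * T = 0 := by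
    have h2 : ∑ _δ : Δ', T = ∑ δ : Δ', ∑ q : GK K ⧸ V, ∑ γ, wv (ξ q.out) Δ γ *
        wv ((δ : Γ) * ξ' q.out) Δ' γ := Finset.sum_congr rfl fun δ _ => key δ
    rw [Finset.sum_const, Finset.card_univ, nsmul_eq_mul, ← Nat.card_eq_fintype_card] at h2
    rw [h2, Finset.sum_comm]
    refine Finset.sum_eq_zero fun q _ => ?_
    rw [Finset.sum_comm]
    refine Finset.sum_eq_zero fun γ _ => ?_
    rw [← Finset.mul_sum, sum_wv_left, mul_zero]
  exact (mul_eq_zero.1 h1).resolve_left (cardR_ne _)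

theorem orth_symm (V : Subgroup (GK K)) [V.Normal] [Finite (GK K ⧸ V)]
    {w w' : GK K ⧸ V → Γ → ℝ} (h : ∑ᶠ q : GK K ⧸ V, ∑ γ, w q γ * w' q γ = 0) :
    ∑ᶠ q : GK K ⧸ V, ∑ γ, w' q γ * w q γ = 0 := by
  rw [← h]
  congr 1
  funext q
  exact Finset.sum_congr rfl fun γ _ => mul_comm _ _

end

end Pool.Agent.K4H20.FM
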